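import Pool.Agent.Lib.MP_4d246d_lc.Tc.Def
import Pool.Agent.Lib.MP_4d246d_lc.EB.TabQLP

/-!
# The digraph of a table, and the gadget for sources and sinks (definitions)

Let `X` be a matrix with `M` rows and entries `0`, `1`, `-1` (see `EB/TabDef.lean`). The table has
the layers `0`, `1`, `2`. The nodes of the digraph are the rows (cells) and the columns of the
table; each cell `e` has three arcs `3 e + t`, `t < 3`, to its three columns. The flows of the two
commodities are the entries in the layers `1` and `2`; the entry in the layer `0` is the slack of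
the joint capacity `1`.

The gadget: for each node `v` and each commodity `k < 2` there are four arcs; the first two lead
from the source `S_k`, the other two lead to the sink `T_k`. They carry one unit of the commodity
`k` and nothing of the other one.
-/

namespace Pool.Agent.Simplex.Tc

open Pool.Agent.Lib.PolyTime Pool.Agent.Simplex.QP Pool.Agent.Simplex.EB Turing

/-! ### The digraph of a table -/

/-- the three columns of the cell `e` -/
def col (X : Mat) (e t : ℕ) : ℕ :=
  if t = 0 then Tab.hgt X e else if t = 1 then 2 * X.2.length + Tab.slR X + e / 2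
  else 2 * X.2.length + Tab.slR X + (Tab.slR X + Tab.colc X e)

/-- number of arcs -/
def wM (X : Mat) : ℕ := 3 * Tab.slr X

/-- number of nodes -/
def wN (X : Mat) : ℕ := Tab.slr X + Tab.slc X

/-- tail of the arc `a` -/
def wtl (a : ℕ) : ℕ := a / 3

/-- head of the arc `a` -/
def whd (X : Mat) (a : ℕ) : ℕ := Tab.slr X + col X (a / 3) (a % 3)

/-- place of the arc `a` in the layer `K` -/
def wpos (X : Mat) (a K : ℕ) : ℕ := ix (Tab.slc X) (a / 3) (col X (a / 3) (a % 3)) K

/-- place of the variable `j` -/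
def tpos (X : Mat) (j : ℕ) : ℕ := if j < wM X then wpos X j 1 else wpos X (j - wM X) 2

/-- supply of the commodity of the layer `K` at the node `v`, for the line sums `S` -/
def wb {G : Type*} [Neg G] (X : Mat) (S : ℕ → G) (K v : ℕ) : G :=
  if v < Tab.slr X then S (Tab.slr X * Tab.slc X + 3 * Tab.slc X + (3 * v + K))
  else - S (Tab.slr X * Tab.slc X + (3 * (v - Tab.slr X) + K))

/-- the line sums of the table program of a program with the matrix `X` and the right-hand
sides `b` -/
def lineQ (X : Mat) (b : List ℚ) (p : ℕ) : ℚ :=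
  lsumQ (Tab.slr X) (Tab.slc X) p (Tab.tabQ X (fun _ => 0)) + Tab.corrQ X b p

theorem len_pos {X : Mat} {e : ℕ} (he : e < Tab.slr X) : 0 < X.2.length := by
  unfold Tab.slr Tab.slR at he
  rcases Nat.eq_zero_or_pos X.2.length with h | h
  · rw [h, Nat.mul_zero] at he
    omega
  · exact h

theorem col_lt {X : Mat} {e : ℕ} (he : e < Tab.slr X) (t : ℕ) : col X e t < Tab.slc X := by
  have hm := len_pos he
  have h1 := Tab.TabInv.hgt_lt' hm he
  have h2 := Tab.TabInv.half_lt he
  have h3 := Tab.TabInv.colc_lt hm he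
  unfold col Tab.slc
  split_ifs <;> omega

theorem arc_lt {X : Mat} {a : ℕ} (ha : a < wM X) : a / 3 < Tab.slr X := by
  unfold wM at ha
  omega

theorem wtl_lt (X : Mat) : ∀ a < wM X, wtl a < wN X := by
  intro a ha
  have := arc_lt ha
  unfold wtl wN
  omega

theorem whd_lt (X : Mat) : ∀ a < wM X, whd X a < wN X := by
  intro a ha
  have := col_lt (arc_lt ha) (a % 3)
  unfold whd wN
  omega

theorem wtl_ne (X : Mat) : ∀ a < wM X, wtl a ≠ whd X a := by
  intro a ha
  have := arc_lt ha
  unfold whd wtl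
  omega

/-- a function on the natural numbers as a function from the arcs to the nodes -/
def fm {N M : ℕ} {f : ℕ → ℕ} (h : ∀ a < M, f a < N) (a : Fin M) : Fin N := ⟨f a, h a a.2⟩

/-! ### The gadget -/

/-- the supplies of the commodity `k` -/
def bk (b₁ b₂ : ℕ → ℚ) (k v : ℕ) : ℚ := if k = 0 then b₁ v else b₂ v

/-- the commodity of the arc `g` of the gadget; its node is `g / 8` -/
def gk (g : ℕ) : ℕ := g / 4 % 2

/-- the arc `g` of the gadget leads from its node to the sink -/
def Src (b₁ b₂ : ℕ → ℚ) (g : ℕ) : Prop :=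
  g / 2 % 2 = 1 ∧ ((g % 2 : ℕ) : ℚ) < - bk b₁ b₂ (gk g) (g / 8)

/-- the arc `g` of the gadget leads from the source to its node -/
def Snk (b₁ b₂ : ℕ → ℚ) (g : ℕ) : Prop :=
  g / 2 % 2 = 0 ∧ ((g % 2 : ℕ) : ℚ) < bk b₁ b₂ (gk g) (g / 8)

instance (b₁ b₂ : ℕ → ℚ) (g : ℕ) : Decidable (Src b₁ b₂ g) := inferInstanceAs (Decidable (_ ∧ _))

instance (b₁ b₂ : ℕ → ℚ) (g : ℕ) : Decidable (Snk b₁ b₂ g) := inferInstanceAs (Decidable (_ ∧ _))

/-- the tails; the source of the commodity `k` is `N + 2 k`, its sink is `N + 2 k + 1` -/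
def stTl (N M : ℕ) (tl : ℕ → ℕ) (b₁ b₂ : ℕ → ℚ) (a : ℕ) : ℕ :=
  if a < M then tl a
  else if Src b₁ b₂ (a - M) then (a - M) / 8 else N + 2 * gk (a - M)

/-- the heads -/
def stHd (N M : ℕ) (hd : ℕ → ℕ) (b₁ b₂ : ℕ → ℚ) (a : ℕ) : ℕ :=
  if a < M then hd a
  else if Snk b₁ b₂ (a - M) then (a - M) / 8 else N + (2 * gk (a - M) + 1)

/-- the value of the flow of the commodity `k`: the number of arcs that leave its source -/
def stD (N : ℕ) (b₁ b₂ : ℕ → ℚ) (k : ℕ) : ℕ :=
  ((List.range (8 * N)).filter (fun g => decide (gk g = k ∧ ¬ Src b₁ b₂ g))).length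

/-- the flow on the new digraph; `M` arcs of the old digraph, `M'` arcs of the new one -/
def stVal {G : Type*} [Zero G] [One G] (M M' : ℕ) (f : ℕ → G) (j : ℕ) : G :=
  if j < M' then (if j < M then f j else if gk (j - M) = 0 then 1 else 0)
  else if j - M' < M then f (M + (j - M'))
  else if gk (j - M' - M) = 1 then 1 else 0

theorem gk_lt (g : ℕ) : gk g < 2 := Nat.mod_lt _ (by norm_num)

theorem stTl_lt {N M : ℕ} {tl : ℕ → ℕ} (h : ∀ a < M, tl a < N) (b₁ b₂ : ℕ → ℚ) :
    ∀ a < M + 8 * N, stTl N M tl b₁ b₂ a < N + 4 := by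
  intro a ha
  have h1 := gk_lt (a - M)
  unfold stTl
  split_ifs with h2
  · have := h a h2
    omega
  · omega
  · omega

theorem stHd_lt {N M : ℕ} {hd : ℕ → ℕ} (h : ∀ a < M, hd a < N) (b₁ b₂ : ℕ → ℚ) :
    ∀ a < M + 8 * N, stHd N M hd b₁ b₂ a < N + 4 := by
  intro a ha
  have h1 := gk_lt (a - M)
  unfold stHd
  split_ifs with h2
  · have := h a h2
    omega
  · omega
  · omega

theorem stTl_ne {N M : ℕ} {tl hd : ℕ → ℕ} (h : ∀ a < M, tl a ≠ hd a)
    (b₁ b₂ : ℕ → ℚ) : ∀ a < M + 8 * N, stTl N M tl b₁ b₂ a ≠ stHd N M hd b₁ b₂ a := by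
  intro a ha
  unfold stTl stHd
  by_cases h2 : a < M
  · rw [if_pos h2, if_pos h2]
    exact h a h2
  · rw [if_neg h2, if_neg h2]
    by_cases h3 : Src b₁ b₂ (a - M)
    · have h4 : ¬ Snk b₁ b₂ (a - M) := fun h4 => by
        have h5 := h3.1
        have h6 := h4.1
        omega
      rw [if_pos h3, if_neg h4]
      omega
    · rw [if_neg h3]
      split_ifs <;> omega

end Pool.Agent.Simplex.Tc
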