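import Pool.Agent.Lib.MP_4d246d_lc.Tc.Def
import Pool.Agent.Lib.MP_4d246d_lc.EB.BFin
import Pool.Agent.Lib.MP_4d246d_lc.EB.SpSize

/-!
# Two-commodity flow programs: feasible points
-/

namespace Pool.Agent.Simplex.Tc

open Pool.Agent.Lib.PolyTime Pool.Agent.Simplex.QP Pool.Agent.Simplex.EB Turing

section

variable {N M : ℕ} {tail head : Fin M → Fin N}

theorem mat_c1 (v : Fin N) (a : Fin M) :
    twoMat tail head (Fin.castAdd M (Fin.castAdd (N + N) (Fin.castAdd N v))) (Fin.castAdd M a) =
      Flw.inc tail head v a := by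
  simp only [twoMat, consMat, Fin.addCases_left, Fin.append_left]

theorem mat_c1' (v : Fin N) (a : Fin M) :
    twoMat tail head (Fin.castAdd M (Fin.castAdd (N + N) (Fin.castAdd N v))) (Fin.natAdd M a) =
      0 := by
  simp only [twoMat, consMat, Fin.addCases_left, Fin.append_right, Pi.zero_apply]

theorem mat_c2 (v : Fin N) (a : Fin M) :
    twoMat tail head (Fin.castAdd M (Fin.castAdd (N + N) (Fin.natAdd N v))) (Fin.natAdd M a) =
      Flw.inc tail head v a := by
  simp only [twoMat, consMat, Fin.addCases_left, Fin.addCases_right, Fin.append_right]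

theorem mat_c2' (v : Fin N) (a : Fin M) :
    twoMat tail head (Fin.castAdd M (Fin.castAdd (N + N) (Fin.natAdd N v))) (Fin.castAdd M a) =
      0 := by
  simp only [twoMat, consMat, Fin.addCases_left, Fin.addCases_right, Fin.append_left,
    Pi.zero_apply]

theorem mat_neg (p : Fin (N + N)) (j : Fin (M + M)) :
    twoMat tail head (Fin.castAdd M (Fin.natAdd (N + N) p)) j =
      - twoMat tail head (Fin.castAdd M (Fin.castAdd (N + N) p)) j := by
  simp only [twoMat, Fin.addCases_left, Fin.addCases_right]

theorem mat_u1 (a a' : Fin M) :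
    twoMat tail head (Fin.natAdd (N + N + (N + N)) a) (Fin.castAdd M a') =
      if a' = a then 1 else 0 := by
  simp only [twoMat, Fin.addCases_right, Fin.append_left]

theorem mat_u2 (a a' : Fin M) :
    twoMat tail head (Fin.natAdd (N + N + (N + N)) a) (Fin.natAdd M a') =
      if a' = a then 1 else 0 := by
  simp only [twoMat, Fin.addCases_right, Fin.append_right]

variable {b₁ b₂ : Fin N → ℝ} {u : Fin M → ℝ} {cost : Fin (M + M) → ℝ}

/-- the conservation sum of the first commodity -/
theorem row_c1 (z : Fin (M + M) → ℝ) (v : Fin N) :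
    ∑ j, (twoMat tail head (Fin.castAdd M (Fin.castAdd (N + N) (Fin.castAdd N v))) j : ℝ) * z j =
      ∑ a, (Flw.inc tail head v a : ℝ) * z (Fin.castAdd M a) := by
  rw [Fin.sum_univ_add]
  simp only [mat_c1, mat_c1', Rat.cast_zero, zero_mul, Finset.sum_const_zero, add_zero]

theorem row_c2 (z : Fin (M + M) → ℝ) (v : Fin N) :
    ∑ j, (twoMat tail head (Fin.castAdd M (Fin.castAdd (N + N) (Fin.natAdd N v))) j : ℝ) * z j =
      ∑ a, (Flw.inc tail head v a : ℝ) * z (Fin.natAdd M a) := by
  rw [Fin.sum_univ_add]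
  simp only [mat_c2, mat_c2', Rat.cast_zero, zero_mul, Finset.sum_const_zero, zero_add]

theorem row_neg (z : Fin (M + M) → ℝ) (p : Fin (N + N)) :
    ∑ j, (twoMat tail head (Fin.castAdd M (Fin.natAdd (N + N) p)) j : ℝ) * z j =
      - ∑ j, (twoMat tail head (Fin.castAdd M (Fin.castAdd (N + N) p)) j : ℝ) * z j := by
  rw [← Finset.sum_neg_distrib]
  refine Finset.sum_congr rfl fun j _ => ?_
  rw [mat_neg, Rat.cast_neg, neg_mul]

theorem row_u (z : Fin (M + M) → ℝ) (a : Fin M) :
    ∑ j, (twoMat tail head (Fin.natAdd (N + N + (N + N)) a) j : ℝ) * z j =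
      z (Fin.castAdd M a) + z (Fin.natAdd M a) := by
  rw [Fin.sum_univ_add]
  simp only [mat_u1, mat_u2]
  congr 1
  · rw [Finset.sum_eq_single a]
    · rw [if_pos rfl, Rat.cast_one, one_mul]
    · intro a' _ h
      rw [if_neg h, Rat.cast_zero, zero_mul]
    · intro h
      exact absurd (Finset.mem_univ _) h
  · rw [Finset.sum_eq_single a]
    · rw [if_pos rfl, Rat.cast_one, one_mul]
    · intro a' _ h
      rw [if_neg h, Rat.cast_zero, zero_mul]
    · intro h
      exact absurd (Finset.mem_univ _) h

theorem rhs_c1 (v : Fin N) : (twoFlow tail head b₁ b₂ u cost).b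
    (Fin.castAdd M (Fin.castAdd (N + N) (Fin.castAdd N v))) = b₁ v := by
  simp only [twoFlow, Fin.addCases_left, Fin.append_left]

theorem rhs_c2 (v : Fin N) : (twoFlow tail head b₁ b₂ u cost).b
    (Fin.castAdd M (Fin.castAdd (N + N) (Fin.natAdd N v))) = b₂ v := by
  simp only [twoFlow, Fin.addCases_left, Fin.append_right]

theorem rhs_neg (p : Fin (N + N)) : (twoFlow tail head b₁ b₂ u cost).b
    (Fin.castAdd M (Fin.natAdd (N + N) p)) =
      - (twoFlow tail head b₁ b₂ u cost).b (Fin.castAdd M (Fin.castAdd (N + N) p)) := by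
  simp only [twoFlow, Fin.addCases_left, Fin.addCases_right]

theorem rhs_u (a : Fin M) : (twoFlow tail head b₁ b₂ u cost).b
    (Fin.natAdd (N + N + (N + N)) a) = u a := by
  simp only [twoFlow, Fin.addCases_right]

/-- **The feasible points.** -/
theorem mem_twoFlow {z : Fin (M + M) → ℝ} :
    z ∈ (twoFlow tail head b₁ b₂ u cost).feasible ↔
      (∀ v, ∑ a, (Flw.inc tail head v a : ℝ) * z (Fin.castAdd M a) = b₁ v) ∧
      (∀ v, ∑ a, (Flw.inc tail head v a : ℝ) * z (Fin.natAdd M a) = b₂ v) ∧
      (∀ a, z (Fin.castAdd M a) + z (Fin.natAdd M a) ≤ u a) ∧ ∀ j, 0 ≤ z j := by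
  have e : (twoFlow tail head b₁ b₂ u cost).A = twoMat tail head := rfl
  unfold RLP.feasible
  rw [Set.mem_setOf_eq, e]
  constructor
  · rintro ⟨h1, h2⟩
    refine ⟨fun v => ?_, fun v => ?_, fun a => ?_, h2⟩
    · refine le_antisymm ?_ ?_
      · have := h1 (Fin.castAdd M (Fin.castAdd (N + N) (Fin.castAdd N v)))
        rwa [row_c1, rhs_c1] at this
      · have := h1 (Fin.castAdd M (Fin.natAdd (N + N) (Fin.castAdd N v)))
        rw [row_neg, row_c1, rhs_neg, rhs_c1] at this
        linarith
    · refine le_antisymm ?_ ?_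
      · have := h1 (Fin.castAdd M (Fin.castAdd (N + N) (Fin.natAdd N v)))
        rwa [row_c2, rhs_c2] at this
      · have := h1 (Fin.castAdd M (Fin.natAdd (N + N) (Fin.natAdd N v)))
        rw [row_neg, row_c2, rhs_neg, rhs_c2] at this
        linarith
    · have := h1 (Fin.natAdd (N + N + (N + N)) a)
      rwa [row_u, rhs_u] at this
  · rintro ⟨h1, h2, h3, h4⟩
    refine ⟨fun i => ?_, h4⟩
    induction i using Fin.addCases with
    | left i =>
      induction i using Fin.addCases with
      | left p =>
        induction p using Fin.addCases with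
        | left v => rw [row_c1, rhs_c1, h1]
        | right v => rw [row_c2, rhs_c2, h2]
      | right p =>
        rw [row_neg, rhs_neg]
        induction p using Fin.addCases with
        | left v => rw [row_c1, rhs_c1, h1]
        | right v => rw [row_c2, rhs_c2, h2]
    | right a =>
      rw [row_u, rhs_u]
      exact h3 a

end

/-- outflow minus inflow at `v`; the arcs are `a < M` -/
noncomputable def dv (M : ℕ) (tl hd : ℕ → ℕ) (x : ℕ → ℝ) (v : ℕ) : ℝ :=
  ∑ a ∈ Finset.range M, ((if tl a = v then x a else 0) - (if hd a = v then x a else 0))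

/-- **The feasible points**, for functions on the natural numbers. -/
theorem mem_twoFlow_nat {N M : ℕ} {tail head : Fin M → Fin N} {tl hd : ℕ → ℕ}
    (ht : ∀ a : Fin M, (tail a : ℕ) = tl a) (hh : ∀ a : Fin M, (head a : ℕ) = hd a)
    {b₁ b₂ : ℕ → ℝ} {u : Fin M → ℝ} {cost : Fin (M + M) → ℝ} {f : ℕ → ℝ} :
    (fun j : Fin (M + M) => f j) ∈
        (twoFlow tail head (fun v => b₁ v) (fun v => b₂ v) u cost).feasible ↔
      (∀ v < N, dv M tl hd f v = b₁ v) ∧ (∀ v < N, dv M tl hd (fun a => f (M + a)) v = b₂ v) ∧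
      (∀ a : Fin M, f a + f (M + a) ≤ u a) ∧ ∀ j < M + M, 0 ≤ f j := by
  have e : ∀ (g : ℕ → ℝ) (v : Fin N), ∑ a : Fin M, (Flw.inc tail head v a : ℝ) * g a =
      dv M tl hd g v := by
    intro g v
    unfold dv
    rw [Finset.sum_range]
    refine Finset.sum_congr rfl fun a _ => ?_
    unfold Flw.inc
    rw [← ht, ← hh]
    simp only [Fin.ext_iff]
    push_cast
    split_ifs <;> simp
  rw [mem_twoFlow]
  refine and_congr ?_ (and_congr ?_ (and_congr Iff.rfl ?_))
  · constructor
    · intro h v hv
      rw [← h ⟨v, hv⟩]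
      exact (e f ⟨v, hv⟩).symm
    · intro h v
      rw [← h v v.2]
      exact e f v
  · constructor
    · intro h v hv
      rw [← h ⟨v, hv⟩]
      exact (e (fun a => f (M + a)) ⟨v, hv⟩).symm
    · intro h v
      rw [← h v v.2]
      exact e (fun a => f (M + a)) v
  · constructor
    · intro h j hj
      exact h ⟨j, hj⟩
    · intro h j
      exact h j j.2

theorem ofQ_twoFlowQ {N M : ℕ} (tail head : Fin M → Fin N) (b₁ b₂ : Fin N → ℚ)
    (u : Fin M → ℚ) (cost : Fin (M + M) → ℚ) :
    ofQ (twoFlowQ tail head b₁ b₂ u cost) = twoFlow tail head (toReal b₁) (toReal b₂)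
      (toReal u) (toReal cost) := by
  unfold ofQ twoFlowQ twoFlow
  congr 1
  funext i
  dsimp only
  induction i using Fin.addCases with
  | left i =>
    induction i using Fin.addCases with
    | left p =>
      simp only [Fin.addCases_left]
      induction p using Fin.addCases with
      | left v => simp only [Fin.append_left, toReal]
      | right v => simp only [Fin.append_right, toReal]
    | right p =>
      simp only [Fin.addCases_left, Fin.addCases_right, Rat.cast_neg]
      induction p using Fin.addCases with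
      | left v => simp only [Fin.append_left, toReal]
      | right v => simp only [Fin.append_right, toReal]
  | right a => simp only [Fin.addCases_right, toReal]

theorem ofQ_unitFlowQ {N M : ℕ} (tail head : Fin M → Fin N) (s₁ t₁ s₂ t₂ : Fin N)
    (d₁ d₂ : ℕ) (e : Fin M) :
    ofQ (unitFlowQ tail head s₁ t₁ s₂ t₂ d₁ d₂ e) = unitFlow tail head s₁ t₁ s₂ t₂ d₁ d₂ e := by
  have h : ∀ (s t : Fin N) (d : ℕ), toReal (ship s t (d : ℚ)) = ship s t (d : ℝ) := by
    intro s t d
    funext v
    unfold toReal ship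
    push_cast
    split_ifs <;> simp
  unfold unitFlowQ unitFlow
  rw [ofQ_twoFlowQ, h, h]
  congr 1
  · funext a
    exact Rat.cast_one
  · funext j
    unfold toReal
    induction j using Fin.addCases with
    | left a => simp only [Fin.append_left, Pi.zero_apply, Rat.cast_zero]
    | right a =>
      simp only [Fin.append_right]
      split_ifs
      · exact Rat.cast_one
      · exact Rat.cast_zero

end Pool.Agent.Simplex.Tc
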