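import Pool.Agent.Lib.MP_4d246d_lc.EB.Statement3
import Pool.Agent.Lib.MP_4d246d_lc.Flw.Def

/-!
# Two-commodity flow programs

A digraph with `N` nodes and `M` arcs (parallel arcs are allowed). The variables are
the flows `x_a` and `y_a` of two commodities on the arcs `a`, as one vector `(x, y)` of length
`M + M`. Maximise a linear function subject to: outflow minus inflow of the commodity `i` at the
node `v` is `b_i v`, `x, y ≥ 0`, `x_a + y_a ≤ u_a` for each arc `a`.
-/

namespace Pool.Agent.Simplex.Tc

open Pool.Agent.Lib.PolyTime Pool.Agent.Simplex.EB Turing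

/-- The matrix of the conservation equations of the two commodities. -/
def consMat {N M : ℕ} (tail head : Fin M → Fin N) : Fin (N + N) → Fin (M + M) → ℚ :=
  Fin.addCases (fun v => Fin.append (Flw.inc tail head v) 0)
    (fun v => Fin.append 0 (Flw.inc tail head v))

/-- The matrix: the conservation equations, their negatives, and the joint capacities. -/
def twoMat {N M : ℕ} (tail head : Fin M → Fin N) :
    Fin (N + N + (N + N) + M) → Fin (M + M) → ℚ :=
  Fin.addCases (Fin.addCases (fun p j => consMat tail head p j)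
    (fun p j => - consMat tail head p j))
    (fun a => Fin.append (fun a' => if a' = a then 1 else 0) (fun a' => if a' = a then 1 else 0))

/-- The two-commodity flow program: maximise `∑ cost_j z_j`, `z = (x, y)`, subject to outflow minus
inflow of `x` at `v` `= b₁ v`, of `y` at `v` `= b₂ v` (two inequalities each), `x, y ≥ 0`,
`x_a + y_a ≤ u_a`. -/
noncomputable def twoFlow {N M : ℕ} (tail head : Fin M → Fin N) (b₁ b₂ : Fin N → ℝ)
    (u : Fin M → ℝ) (cost : Fin (M + M) → ℝ) : RLP (N + N + (N + N) + M) (M + M) where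
  A := twoMat tail head
  b := Fin.addCases (Fin.addCases (Fin.append b₁ b₂) (fun p => - Fin.append b₁ b₂ p)) u
  c := cost

/-- The same with rational data. -/
def twoFlowQ {N M : ℕ} (tail head : Fin M → Fin N) (b₁ b₂ : Fin N → ℚ)
    (u : Fin M → ℚ) (cost : Fin (M + M) → ℚ) : QLP (N + N + (N + N) + M) (M + M) where
  A := twoMat tail head
  b := Fin.addCases (Fin.addCases (Fin.append b₁ b₂) (fun p => - Fin.append b₁ b₂ p)) u
  c := cost

/-- `d` units from `s` to `t` -/
def ship {N : ℕ} {G : Type*} [AddGroup G] (s t : Fin N) (d : G) (v : Fin N) : G :=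
  (if v = s then d else 0) - (if v = t then d else 0)

/-- The two-commodity flow program with unit capacities: among the pairs of a flow of value `d₁`
from `s₁` to `t₁` and a flow of value `d₂` from `s₂` to `t₂`, nonnegative and with the sum at most
`1` on each arc, maximise the second flow on the arc `e`. -/
noncomputable def unitFlow {N M : ℕ} (tail head : Fin M → Fin N) (s₁ t₁ s₂ t₂ : Fin N)
    (d₁ d₂ : ℕ) (e : Fin M) : RLP (N + N + (N + N) + M) (M + M) :=
  twoFlow tail head (ship s₁ t₁ (d₁ : ℝ)) (ship s₂ t₂ (d₂ : ℝ)) (fun _ => 1)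
    (Fin.append 0 (fun a => if a = e then 1 else 0))

/-- The same with rational data. -/
def unitFlowQ {N M : ℕ} (tail head : Fin M → Fin N) (s₁ t₁ s₂ t₂ : Fin N)
    (d₁ d₂ : ℕ) (e : Fin M) : QLP (N + N + (N + N) + M) (M + M) :=
  twoFlowQ tail head (ship s₁ t₁ (d₁ : ℚ)) (ship s₂ t₂ (d₂ : ℚ)) (fun _ => 1)
    (Fin.append 0 (fun a => if a = e then 1 else 0))

/-- The nodes are on four levels, and each arc leads from a level to a higher one. -/
def Layered {N M : ℕ} (tail head : Fin M → Fin N) : Prop :=
  ∃ level : Fin N → Fin 4, ∀ a, level (tail a) < level (head a)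

/-- The input is a two-commodity flow program with unit capacities for such a digraph. -/
def IsUnitFlow (I : Input) : Prop :=
  ∃ (N M : ℕ) (tail head : Fin M → Fin N) (s₁ t₁ s₂ t₂ : Fin N) (d₁ d₂ : ℕ) (e : Fin M)
    (v : Fin (M + M) → ℚ) (hv : (unitFlowQ tail head s₁ t₁ s₂ t₂ d₁ d₂ e).Vertex (toReal v)),
    Layered tail head ∧ I = ⟨_, _, unitFlowQ tail head s₁ t₁ s₂ t₂ d₁ d₂ e, v, hv⟩

end Pool.Agent.Simplex.Tc
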