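import Pool.Agent.Lib.MP_4d246d_lc.Tc.Poly
import Pool.Agent.Lib.MP_4d246d_lc.EB.OnBlind

/-!
# Question 1 for two-commodity flow programs
-/

namespace Pool.Agent.Simplex.Tc

open Pool.Agent.Lib.PolyTime Pool.Agent.Simplex.QP Pool.Agent.Simplex.EB Turing

/-- Question 1 for the two-commodity flow programs implies it for all transportation programs. -/
theorem slimSimplex_of_unitFlow (h : SimplexOn IsUnitFlow) : SlimSimplex :=
  SimplexOn.of_red (Q := IsUnitFlow) (P := IsTransport) redU_unit (back := backU)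
    (backL := backLU) ofFn_backU polyF_redU polyF_backLU
    (fun _ _ _ _ h => run_of_redU h) h

/-- **Question 1 is equivalent to Question 1 for the two-commodity flow programs with unit
capacities.** -/
theorem polySimplex_iff_unitFlow : PolySimplex ↔ SimplexOn IsUnitFlow :=
  ⟨fun h => h.on _, fun h => polySimplex_iff_slim.2 (slimSimplex_of_unitFlow h)⟩

/-- **Question 1 is the question whether the optimal rule is polynomial on the two-commodity flow
programs with unit capacities, one source and one sink for each commodity, on digraphs with four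
levels, that maximise the second flow on one arc.** -/
theorem unitFlow_iff {U : BlindRule} (hU : Optimal U) (hp : U.Poly) :
    PolySimplex ↔ ∃ P : Polynomial ℕ, ∀ (N M : ℕ) (tail head : Fin M → Fin N)
      (s₁ t₁ s₂ t₂ : Fin N) (d₁ d₂ : ℕ) (e : Fin M), Layered tail head →
        Solves U (unitFlow tail head s₁ t₁ s₂ t₂ d₁ d₂ e) (P.eval (N + M)) := by
  constructor
  · intro h
    obtain ⟨P, hP⟩ := (hU.poly_iff hp).1 h
    obtain ⟨Q, hQ⟩ := size_two
    refine ⟨P.comp Q, fun N M tail head s₁ t₁ s₂ t₂ d₁ d₂ e _ => (hP _ _ _).mono ?_⟩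
    rw [Polynomial.eval_comp]
    exact peval_mono P (hQ N M tail head _ _ _ _)
  · rintro ⟨P, hP⟩
    refine polySimplex_iff_unitFlow.2 (simplexOn_of_blind hp (P := P) ?_)
    rintro I ⟨N, M, tail, head, s₁, t₁, s₂, t₂, d₁, d₂, e, v, hv, hl, rfl⟩
    show Solves U (ofQ (unitFlowQ tail head s₁ t₁ s₂ t₂ d₁ d₂ e)) _
    rw [ofQ_unitFlowQ]
    exact (hP N M tail head s₁ t₁ s₂ t₂ d₁ d₂ e hl).mono (peval_mono P le_matSize)

/-- the same for all two-commodity flow programs -/
theorem twoFlow_iff {U : BlindRule} (hU : Optimal U) (hp : U.Poly) :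
    PolySimplex ↔ ∃ P : Polynomial ℕ, ∀ (N M : ℕ) (tail head : Fin M → Fin N)
      (b₁ b₂ : Fin N → ℝ) (u : Fin M → ℝ) (cost : Fin (M + M) → ℝ), (∀ a, tail a ≠ head a) →
        Solves U (twoFlow tail head b₁ b₂ u cost) (P.eval (N + M)) := by
  constructor
  · intro h
    obtain ⟨P, hP⟩ := (hU.poly_iff hp).1 h
    obtain ⟨Q, hQ⟩ := size_two
    refine ⟨P.comp Q, fun N M tail head b₁ b₂ u cost _ => (hP _ _ _).mono ?_⟩
    rw [Polynomial.eval_comp]
    exact peval_mono P (hQ N M tail head _ _ _ _)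
  · rintro ⟨P, hP⟩
    exact (unitFlow_iff hU hp).2 ⟨P, fun N M tail head s₁ t₁ s₂ t₂ d₁ d₂ e hl =>
      hP N M tail head _ _ _ _ fun a h => by
        obtain ⟨lev, hlev⟩ := hl
        have h1 := hlev a
        rw [h] at h1
        exact lt_irrefl _ h1⟩

end Pool.Agent.Simplex.Tc
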