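import Pool.Agent.Lib.MP_4d246d_lc.Tc.TabFlow

/-!
# The isomorphism of a program with a two-commodity flow program

The map is `x ↦ z`, `z_j = F x (tpos X j)`, where `X := (ofQ I.lp).mat`,
`F x := tab X 1 (vfun x)`. The table `F x` has the line sums `lineQ X b`; the conservation
equations are the lines of the layers `1` and `2` (`dv_iff`), the joint capacities are the lines
`(e, J, ·)`.
-/

open Finset

namespace Pool.Agent.Simplex.Tc

open Pool.Agent.Lib.PolyTime Pool.Agent.Simplex.QP Pool.Agent.Simplex.EB Turing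

variable {m n : ℕ} {D : RLP m n}

/-- the line sums of the table program -/
private noncomputable def SR (D : RLP m n) (p : ℕ) : ℝ :=
  lsum (Tab.slr D.mat) (Tab.slc D.mat) p (Tab.tab D.mat 1 (fun _ => 0)) +
    Tab.corr D.mat (Tab.rhsN D) p

private theorem is_table {f : ℕ → ℝ} :
    (fun q : Fin (3 * (Tab.slr D.mat * Tab.slc D.mat)) => f q) ∈ (Tab.table D 1).feasible ↔
      (∀ p : Fin (lines (Tab.slr D.mat) (Tab.slc D.mat)),
        lsum (Tab.slr D.mat) (Tab.slc D.mat) p f = SR D p) ∧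
      ∀ q < 3 * (Tab.slr D.mat * Tab.slc D.mat), 0 ≤ f q :=
  transport_feasible

/-- the map -/
private noncomputable def isL (D : RLP m n) :
    (Fin n → ℝ) →ₗ[ℝ] (Fin (wM D.mat + wM D.mat) → ℝ) :=
  (LinearMap.funLeft ℝ ℝ (fun j : Fin (wM D.mat + wM D.mat) =>
    (⟨tpos D.mat j, tpos_lt j.2⟩ : Fin (3 * (Tab.slr D.mat * Tab.slc D.mat))))) ∘ₗ Tab.tabL D

private theorem isL_apply (x : Fin n → ℝ) (j : Fin (wM D.mat + wM D.mat)) :
    isL D x j = Tab.tab D.mat 0 (Tab.vfun x) (tpos D.mat j) := rfl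

private theorem is_map (x : Fin n → ℝ) (j : Fin (wM D.mat + wM D.mat)) :
    (isL D x + fun j : Fin (wM D.mat + wM D.mat) => Tab.tab D.mat 1 (fun _ => 0) (tpos D.mat j))
      j = Tab.tab D.mat 1 (Tab.vfun x) (tpos D.mat j) := by
  rw [Pi.add_apply, isL_apply, Tab.tabL_add]

/-- the place of the variable `v` -/
private theorem is_place (X : Mat) (v : ℕ) :
    tpos X (wM X + (6 * (v * X.2.length) + 1)) = Tab.slp0 X v := by
  have h1 : 6 * (v * X.2.length) + 1 = 3 * (2 * (v * X.2.length)) + 1 := by ring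
  have h3 : 2 * (v * X.2.length) / 2 = v * X.2.length := by omega
  unfold tpos
  rw [if_neg (by omega), Nat.add_sub_cancel_left, h1, wpos_mk X (by norm_num), col_one, h3]
  rfl

private theorem is_lt {X : Mat} (hm : 0 < X.2.length) {v : ℕ} (hv : v < X.1) :
    6 * (v * X.2.length) + 1 < wM X := by
  have h1 : (v + 1) * X.2.length ≤ X.1 * X.2.length := Nat.mul_le_mul_right _ hv
  have h2 : (v + 1) * X.2.length = v * X.2.length + X.2.length := by ring
  unfold wM Tab.slr Tab.slR
  omega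

private theorem is_inj (hm : 0 < m) : Function.Injective (isL D) := by
  intro x y hxy
  have hl : 0 < D.mat.2.length := by
    rw [slim_length]
    exact hm
  funext v
  have hv : (v : ℕ) < D.mat.1 := v.2
  have h0 := is_lt hl hv
  have h1 := congrFun hxy ⟨wM D.mat + (6 * ((v : ℕ) * D.mat.2.length) + 1), by omega⟩
  rw [isL_apply, isL_apply] at h1
  dsimp only at h1
  rw [is_place, Tab.tab_slp0 hm _ _ v.2, Tab.tab_slp0 hm _ _ v.2, Tab.vfun_fin,
    Tab.vfun_fin] at h1
  exact h1

/-- the line sums of the feasible tables -/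
private theorem is_lines (hA : Units D.A) (hm : 0 < m) (hE : Tab.Eqs D)
    (hU : ∀ x ∈ D.feasible, ∀ j, x j ≤ 1) {x : Fin n → ℝ} (hx : x ∈ D.feasible) :
    (∀ p < lines (Tab.slr D.mat) (Tab.slc D.mat), lsum (Tab.slr D.mat) (Tab.slc D.mat) p
      (Tab.tab D.mat 1 (Tab.vfun x)) = SR D p) ∧
    ∀ q < 3 * (Tab.slr D.mat * Tab.slc D.mat), 0 ≤ Tab.tab D.mat 1 (Tab.vfun x) q := by
  have h1 : (fun q : Fin (3 * (Tab.slr D.mat * Tab.slc D.mat)) =>
      Tab.tab D.mat 1 (Tab.vfun x) q) ∈ (Tab.table D 1).feasible := by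
    rw [Tab.tab_feas hA hm hE hU]
    refine ⟨x, hx, ?_⟩
    funext q
    dsimp only
    rw [Pi.add_apply, Tab.tabL_apply, Tab.tabL_add]
  obtain ⟨h2, h3⟩ := is_table.1 h1
  exact ⟨fun p hp => h2 ⟨p, hp⟩, h3⟩

variable {b₁ b₂ : ℕ → ℝ} {cost : Fin (wM D.mat + wM D.mat) → ℝ}

/-- the feasible points -/
private theorem is_feas (hA : Units D.A) (hm : 0 < m) (hE : Tab.Eqs D)
    (hU : ∀ x ∈ D.feasible, ∀ j, x j ≤ 1) {x₀ : Fin n → ℝ} (hx₀ : x₀ ∈ D.feasible)
    (h₁ : ∀ v < wN D.mat, b₁ v = wb D.mat (SR D) 1 v)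
    (h₂ : ∀ v < wN D.mat, b₂ v = wb D.mat (SR D) 2 v) :
    (twoFlow (fm (wtl_lt D.mat)) (fm (whd_lt D.mat)) (fun v => b₁ v) (fun v => b₂ v)
      (fun _ => 1) cost).feasible =
    (fun x => isL D x + fun j : Fin (wM D.mat + wM D.mat) =>
      Tab.tab D.mat 1 (fun _ => 0) (tpos D.mat j)) '' D.feasible := by
  have hadd : ∀ x : Fin n → ℝ, (isL D x + fun j : Fin (wM D.mat + wM D.mat) =>
      Tab.tab D.mat 1 (fun _ => 0) (tpos D.mat j)) =
      fun j : Fin (wM D.mat + wM D.mat) => Tab.tab D.mat 1 (Tab.vfun x) (tpos D.mat j) := by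
    intro x
    funext j
    exact is_map x j
  have hp1 : ∀ a < wM D.mat, tpos D.mat a = wpos D.mat a 1 := by
    intro a ha
    unfold tpos
    rw [if_pos ha]
  have hp2 : ∀ a, tpos D.mat (wM D.mat + a) = wpos D.mat a 2 := by
    intro a
    unfold tpos
    rw [if_neg (by omega), Nat.add_sub_cancel_left]
  have hdv : ∀ {g g' : ℕ → ℝ}, (∀ a < wM D.mat, g a = g' a) → ∀ v,
      dv (wM D.mat) wtl (whd D.mat) g v = dv (wM D.mat) wtl (whd D.mat) g' v := by
    intro g g' h v
    unfold dv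
    refine sum_congr rfl fun a ha => ?_
    rw [h a (mem_range.1 ha)]
  obtain ⟨l₀, -⟩ := is_lines hA hm hE hU hx₀
  ext z
  constructor
  · intro hz
    set g : ℕ → ℝ := fun j => if h : j < wM D.mat + wM D.mat then z ⟨j, h⟩ else 0 with hg
    have hzz : z = fun j : Fin (wM D.mat + wM D.mat) => g j := by
      funext j
      rw [hg]
      dsimp only
      rw [dif_pos j.2]
    rw [hzz] at hz
    obtain ⟨f1, f2, f3, f4⟩ := (mem_twoFlow_nat (tl := wtl) (hd := whd D.mat) (fun _ => rfl)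
      (fun _ => rfl)).1 hz
    have hsup := went_sup (X := D.mat) g
    -- the line sums
    have hA' : ∀ e < Tab.slr D.mat, ∀ J < Tab.slc D.mat,
        lsum (Tab.slr D.mat) (Tab.slc D.mat) (e * Tab.slc D.mat + J) (went D.mat g) =
        lsum (Tab.slr D.mat) (Tab.slc D.mat) (e * Tab.slc D.mat + J)
          (Tab.tab D.mat 1 (Tab.vfun x₀)) := by
      intro e he J hJ
      rw [went_A g he hJ, tab_A _ he hJ]
    have hl : ∀ K, K = 1 ∨ K = 2 →
        (∀ e < Tab.slr D.mat, lsum (Tab.slr D.mat) (Tab.slc D.mat)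
          (Tab.slr D.mat * Tab.slc D.mat + 3 * Tab.slc D.mat + (3 * e + K)) (went D.mat g) =
          SR D (Tab.slr D.mat * Tab.slc D.mat + 3 * Tab.slc D.mat + (3 * e + K))) ∧
        ∀ J < Tab.slc D.mat, lsum (Tab.slr D.mat) (Tab.slc D.mat)
          (Tab.slr D.mat * Tab.slc D.mat + (3 * J + K)) (went D.mat g) =
          SR D (Tab.slr D.mat * Tab.slc D.mat + (3 * J + K)) := by
      rintro K (rfl | rfl)
      · refine (dv_iff hsup (SR D) (by norm_num)).1 fun v hv => ?_
        rw [← h₁ v hv, ← f1 v hv]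
        refine hdv (fun a ha => ?_) v
        rw [went_wpos g ha (by norm_num)]
        rfl
      · refine (dv_iff hsup (SR D) (by norm_num)).1 fun v hv => ?_
        rw [← h₂ v hv, ← f2 v hv]
        refine hdv (fun a ha => ?_) v
        rw [went_wpos g ha (by norm_num)]
        rfl
    have hlt1 : ∀ e < Tab.slr D.mat, ∀ K < 3, Tab.slr D.mat * Tab.slc D.mat +
        3 * Tab.slc D.mat + (3 * e + K) < lines (Tab.slr D.mat) (Tab.slc D.mat) := by
      intro e he K hK
      unfold lines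
      omega
    have hlt2 : ∀ J < Tab.slc D.mat, ∀ K < 3, Tab.slr D.mat * Tab.slc D.mat + (3 * J + K) <
        lines (Tab.slr D.mat) (Tab.slc D.mat) := by
      intro J hJ K hK
      unfold lines
      omega
    have hall := all_lines hA'
      (fun K hK e he => ((hl K hK).1 e he).trans (l₀ _ (hlt1 e he K (by omega))).symm)
      (fun K hK J hJ => ((hl K hK).2 J hJ).trans (l₀ _ (hlt2 J hJ K (by omega))).symm)
    have hmem : (fun q : Fin (3 * (Tab.slr D.mat * Tab.slc D.mat)) => went D.mat g q) ∈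
        (Tab.table D 1).feasible := by
      refine is_table.2 ⟨fun p => (hall p p.2).trans (l₀ p p.2), fun q hq => ?_⟩
      obtain ⟨e, J, K, he, hJ, hK, rfl⟩ := exists_ix hq
      rw [went_ix g hJ hK]
      refine sum_nonneg fun t ht => ?_
      split_ifs
      · have ht' := mem_range.1 ht
        have ha : 3 * e + t < wM D.mat := by
          unfold wM
          omega
        have g1 := f4 (3 * e + t) (by omega)
        have g2 := f4 (wM D.mat + (3 * e + t)) (by omega)
        have g3 := f3 ⟨3 * e + t, ha⟩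
        dsimp only at g3
        unfold cellv
        split_ifs
        · linarith
        · exact g1
        · exact g2
      · exact le_rfl
    rw [Tab.tab_feas hA hm hE hU] at hmem
    obtain ⟨x, hx, hxe⟩ := hmem
    refine ⟨x, hx, ?_⟩
    dsimp only
    rw [hadd, hzz]
    funext j
    have h5 := congrFun hxe ⟨tpos D.mat j, tpos_lt j.2⟩
    dsimp only at h5
    rw [Pi.add_apply, Tab.tabL_apply, Tab.tabL_add] at h5
    rw [h5]
    by_cases hj : (j : ℕ) < wM D.mat
    · rw [hp1 _ hj, went_wpos g hj (by norm_num)]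
      rfl
    · have hj' : (j : ℕ) - wM D.mat < wM D.mat := by
        have := j.2
        omega
      obtain ⟨a, ha⟩ : ∃ a, (j : ℕ) = wM D.mat + a := ⟨(j : ℕ) - wM D.mat, by omega⟩
      have ha' : a < wM D.mat := by omega
      rw [ha, hp2, went_wpos g ha' (by norm_num)]
      rfl
  · rintro ⟨x, hx, rfl⟩
    dsimp only
    rw [hadd]
    obtain ⟨l, hpos⟩ := is_lines hA hm hE hU hx
    have hsup := tab_sup (X := D.mat) (Tab.vfun x)
    refine (mem_twoFlow_nat (tl := wtl) (hd := whd D.mat)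
      (f := fun j => Tab.tab D.mat 1 (Tab.vfun x) (tpos D.mat j)) (fun _ => rfl)
      (fun _ => rfl)).2 ⟨fun v hv => ?_, fun v hv => ?_, fun a => ?_, fun j hj => ?_⟩
    · rw [h₁ v hv, ← (dv_iff hsup (SR D) (K := 1) (by norm_num)).2
        ⟨fun e he => l _ (by unfold lines; omega), fun J hJ => l _ (by unfold lines; omega)⟩
        v hv]
      refine hdv (fun a ha => ?_) v
      rw [hp1 a ha]
    · rw [h₂ v hv, ← (dv_iff hsup (SR D) (K := 2) (by norm_num)).2
        ⟨fun e he => l _ (by unfold lines; omega), fun J hJ => l _ (by unfold lines; omega)⟩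
        v hv]
      refine hdv (fun a ha => ?_) v
      rw [hp2 a]
    · have ha := arc_lt a.2
      have hc := col_lt ha ((a : ℕ) % 3)
      have h5 := tab_A (X := D.mat) (Tab.vfun x) ha hc
      have h6 : (∑ t ∈ range 3, if col D.mat ((a : ℕ) / 3) ((a : ℕ) % 3) =
          col D.mat ((a : ℕ) / 3) t then (1 : ℝ) else 0) = 1 := by
        rw [sum_eq_single ((a : ℕ) % 3)]
        · rw [if_pos rfl]
        · intro t ht hne
          rw [if_neg fun h => hne (col_inj ha (Nat.mod_lt _ (by norm_num))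
            (mem_range.1 ht) h).symm]
        · intro h
          exact absurd (mem_range.2 (Nat.mod_lt _ (by norm_num))) h
      rw [h6, lsum_A ha hc] at h5
      simp only [sum_range_succ, sum_range_zero, zero_add] at h5
      have h7 := hpos _ (ix_lt ha hc (show 0 < 3 by norm_num))
      rw [hp1 _ a.2, hp2]
      unfold wpos
      linarith
    · exact hpos _ (tpos_lt hj)

private theorem is_obj (hm : 0 < m) {v₀ : Fin n} (hc : ∀ j, D.c j = if j = v₀ then 1 else 0)
    (x : Fin n → ℝ) :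
    (twoFlow (fm (wtl_lt D.mat)) (fm (whd_lt D.mat)) (fun v => b₁ v) (fun v => b₂ v)
      (fun _ => 1) (Fin.append 0 (fun a => if (a : ℕ) = 6 * (v₀ * D.mat.2.length) + 1
        then 1 else 0))).obj (isL D x + fun j : Fin (wM D.mat + wM D.mat) =>
      Tab.tab D.mat 1 (fun _ => 0) (tpos D.mat j)) = 1 * D.obj x + 0 := by
  have hl : 0 < D.mat.2.length := by
    rw [slim_length]
    exact hm
  have h0 := is_lt hl (show (v₀ : ℕ) < D.mat.1 from v₀.2)
  rw [one_mul, add_zero]
  unfold RLP.obj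
  have e1 : ∀ j, (twoFlow (fm (wtl_lt D.mat)) (fm (whd_lt D.mat)) (fun v => b₁ v)
      (fun v => b₂ v) (fun _ => 1) (Fin.append 0 (fun a => if (a : ℕ) =
        6 * (v₀ * D.mat.2.length) + 1 then 1 else 0))).c j =
      (Fin.append 0 (fun a => if (a : ℕ) = 6 * (v₀ * D.mat.2.length) + 1 then 1 else 0) :
        Fin (wM D.mat + wM D.mat) → ℝ) j := fun _ => rfl
  simp only [e1, is_map]
  rw [Fin.sum_univ_add]
  simp only [Fin.append_left, Fin.append_right, Pi.zero_apply, zero_mul, sum_const_zero,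
    zero_add]
  rw [sum_eq_single ⟨6 * (v₀ * D.mat.2.length) + 1, h0⟩]
  · rw [if_pos rfl, one_mul, Fin.val_natAdd]
    dsimp only
    rw [is_place, Tab.tab_slp0 hm _ _ v₀.2, Tab.vfun_fin, sum_eq_single v₀]
    · rw [hc, if_pos rfl, one_mul]
    · intro j _ hne
      rw [hc, if_neg hne, zero_mul]
    · intro h
      exact absurd (mem_univ _) h
  · intro a _ hne
    rw [if_neg fun h => hne (Fin.ext h), zero_mul]
  · intro h
    exact absurd (mem_univ _) h

/-- the line sums with rational entries -/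
private theorem is_cast {I : Input} (p : ℕ) :
    ((lineQ (ofQ I.lp).mat (List.ofFn I.lp.b) p : ℚ) : ℝ) = SR (ofQ I.lp) p := by
  unfold lineQ SR
  rw [Rat.cast_add, cast_lsumQ]
  congr 1
  · exact Tab.TabInv.lsum_congr fun q _ => Tab.cast_tabQ0 _ q
  · exact Tab.cast_corrQ (fun s hs => Tab.getD_ofFn_rhsN I.lp (by
      rw [slim_length] at hs
      exact hs)) p

private theorem is_wb {I : Input} (K v : ℕ) :
    ((wb (ofQ I.lp).mat (lineQ (ofQ I.lp).mat (List.ofFn I.lp.b)) K v : ℚ) : ℝ) =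
      wb (ofQ I.lp).mat (SR (ofQ I.lp)) K v := by
  unfold wb
  split_ifs
  · exact is_cast _
  · rw [Rat.cast_neg, is_cast]

/-- **The program is isomorphic to a two-commodity flow program with unit capacities.** -/
theorem exists_isoA {I : Input} (h : Tab.OkT I) (v₀ : Fin I.n)
    (hc : ∀ j, I.lp.c j = if j = v₀ then 1 else 0) :
    ∃ E : PIso (ofQ I.lp)
        (twoFlow (fm (wtl_lt (ofQ I.lp).mat)) (fm (whd_lt (ofQ I.lp).mat))
          (fun v => ((wb (ofQ I.lp).mat (lineQ (ofQ I.lp).mat (List.ofFn I.lp.b)) 1 v : ℚ) : ℝ))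
          (fun v => ((wb (ofQ I.lp).mat (lineQ (ofQ I.lp).mat (List.ofFn I.lp.b)) 2 v : ℚ) : ℝ))
          (fun _ => 1)
          (Fin.append 0 (fun a => if (a : ℕ) = 6 * (v₀ * (ofQ I.lp).mat.2.length) + 1
            then 1 else 0))),
      ∀ (x : Fin I.n → ℝ) (j : Fin (wM (ofQ I.lp).mat + wM (ofQ I.lp).mat)),
        E.map x j = Tab.tab (ofQ I.lp).mat 1 (Tab.vfun x) (tpos (ofQ I.lp).mat j) := by
  have hc' : ∀ j, (ofQ I.lp).c j = if j = v₀ then 1 else 0 := by
    intro j
    show ((I.lp.c j : ℚ) : ℝ) = _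
    rw [hc]
    split_ifs
    · exact Rat.cast_one
    · exact Rat.cast_zero
  refine ⟨{ L := isL (ofQ I.lp)
            a := fun j => Tab.tab (ofQ I.lp).mat 1 (fun _ => 0) (tpos (ofQ I.lp).mat j)
            inj := is_inj h.pos
            feas := is_feas (b₁ := fun v => ((wb (ofQ I.lp).mat (lineQ (ofQ I.lp).mat
              (List.ofFn I.lp.b)) 1 v : ℚ) : ℝ)) (b₂ := fun v => ((wb (ofQ I.lp).mat
              (lineQ (ofQ I.lp).mat (List.ofFn I.lp.b)) 2 v : ℚ) : ℝ)) h.units h.pos h.eqs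
              h.under (x₀ := toReal I.v) I.vertex.1 (fun v _ => is_wb 1 v)
              (fun v _ => is_wb 2 v)
            κ := 1
            pos := one_pos
            β := 0
            obj := is_obj (b₁ := fun v => ((wb (ofQ I.lp).mat (lineQ (ofQ I.lp).mat
              (List.ofFn I.lp.b)) 1 v : ℚ) : ℝ)) (b₂ := fun v => ((wb (ofQ I.lp).mat
              (lineQ (ofQ I.lp).mat (List.ofFn I.lp.b)) 2 v : ℚ) : ℝ)) h.pos hc' },
    fun x j => is_map x j⟩

/-- the supplies are integers between `-2` and `2` -/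
theorem wb_int {I : Input} (h : Tab.OkT I) {K : ℕ} (hK : K < 3) :
    ∀ v < wN (ofQ I.lp).mat, ∃ z : ℤ, |z| ≤ 2 ∧
      wb (ofQ I.lp).mat (lineQ (ofQ I.lp).mat (List.ofFn I.lp.b)) K v = z := by
  intro v hv
  unfold wN at hv
  unfold wb
  split_ifs with h1
  · obtain ⟨s, hs1, hs2⟩ := Tab.table_small h (p := Tab.slr (ofQ I.lp).mat *
      Tab.slc (ofQ I.lp).mat + 3 * Tab.slc (ofQ I.lp).mat + (3 * v + K)) (by
        unfold lines
        omega)
    refine ⟨s, ?_, ?_⟩
    · rw [abs_of_nonneg (by omega)]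
      exact_mod_cast hs1
    · unfold lineQ
      rw [hs2]
      exact (Int.cast_natCast s).symm
  · obtain ⟨s, hs1, hs2⟩ := Tab.table_small h (p := Tab.slr (ofQ I.lp).mat *
      Tab.slc (ofQ I.lp).mat + (3 * (v - Tab.slr (ofQ I.lp).mat) + K)) (by
        unfold lines
        omega)
    refine ⟨-s, ?_, ?_⟩
    · rw [abs_neg, abs_of_nonneg (by omega)]
      exact_mod_cast hs1
    · unfold lineQ
      rw [hs2, Int.cast_neg, Int.cast_natCast]

end Pool.Agent.Simplex.Tc
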