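import Pool.Agent.Lib.MP_4d246d_lc.Tc.Basic
import Pool.Agent.Lib.MP_4d246d_lc.Tc.Arcs

/-!
# Two-commodity flow programs as lists, and their size
-/

namespace Pool.Agent.Simplex.Tc

open Pool.Agent.Lib.PolyTime Pool.Agent.Simplex.QP Pool.Agent.Simplex.EB Turing

/-- entry of the incidence matrix -/
def incN (tl hd : ℕ → ℕ) (v a : ℕ) : ℚ :=
  (if tl a = v then 1 else 0) - (if hd a = v then 1 else 0)

/-- entry of the conservation rows -/
def consN (N M : ℕ) (tl hd : ℕ → ℕ) (p j : ℕ) : ℚ :=
  if p < N then (if j < M then incN tl hd p j else 0)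
  else if j < M then 0 else incN tl hd (p - N) (j - M)

/-- entry of the matrix -/
def entN (N M : ℕ) (tl hd : ℕ → ℕ) (p j : ℕ) : ℚ :=
  if p < N + N then consN N M tl hd p j
  else if p < N + N + (N + N) then - consN N M tl hd (p - (N + N)) j
  else if j < M then (if j = p - (N + N + (N + N)) then 1 else 0)
  else if j - M = p - (N + N + (N + N)) then 1 else 0

theorem consN_eq {N M : ℕ} {tl hd : ℕ → ℕ} (htl : ∀ a < M, tl a < N) (hhd : ∀ a < M, hd a < N)
    (p : Fin (N + N)) (j : Fin (M + M)) :
    consMat (fm htl) (fm hhd) p j = consN N M tl hd p j := by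
  have e : ∀ (v : Fin N) (a : Fin M), Flw.inc (fm htl) (fm hhd) v a = incN tl hd v a := by
    intro v a
    unfold Flw.inc incN fm
    simp only [Fin.ext_iff]
  unfold consMat consN
  induction p using Fin.addCases with
  | left v =>
    rw [Fin.addCases_left, Fin.val_castAdd, if_pos v.2]
    induction j using Fin.addCases with
    | left a => rw [Fin.append_left, Fin.val_castAdd, if_pos a.2, e]
    | right a => rw [Fin.append_right, Fin.val_natAdd, if_neg (by omega), Pi.zero_apply]
  | right v =>
    rw [Fin.addCases_right, Fin.val_natAdd, if_neg (by omega), Nat.add_sub_cancel_left]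
    induction j using Fin.addCases with
    | left a => rw [Fin.append_left, Fin.val_castAdd, if_pos a.2, Pi.zero_apply]
    | right a =>
      rw [Fin.append_right, Fin.val_natAdd, if_neg (by omega), Nat.add_sub_cancel_left, e]

theorem entN_eq {N M : ℕ} {tl hd : ℕ → ℕ} (htl : ∀ a < M, tl a < N) (hhd : ∀ a < M, hd a < N)
    (p : Fin (N + N + (N + N) + M)) (j : Fin (M + M)) :
    twoMat (fm htl) (fm hhd) p j = entN N M tl hd p j := by
  unfold twoMat entN
  induction p using Fin.addCases with
  | left p =>
    rw [Fin.addCases_left]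
    induction p using Fin.addCases with
    | left p =>
      rw [Fin.addCases_left, Fin.val_castAdd, Fin.val_castAdd, if_pos p.2, consN_eq]
    | right p =>
      have h1 : ¬ (N + N + (p : ℕ) < N + N) := by omega
      have h2 : N + N + (p : ℕ) < N + N + (N + N) := by omega
      rw [Fin.addCases_right, Fin.val_castAdd, Fin.val_natAdd, if_neg h1, if_pos h2,
        Nat.add_sub_cancel_left, consN_eq]
  | right a =>
    have h1 : ¬ (N + N + (N + N) + (a : ℕ) < N + N) := by omega
    have h2 : ¬ (N + N + (N + N) + (a : ℕ) < N + N + (N + N)) := by omega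
    rw [Fin.addCases_right, Fin.val_natAdd, if_neg h1, if_neg h2, Nat.add_sub_cancel_left]
    induction j using Fin.addCases with
    | left a' =>
      rw [Fin.append_left, Fin.val_castAdd, if_pos a'.2]
      simp only [Fin.ext_iff]
    | right a' =>
      have h3 : ¬ (M + (a' : ℕ) < M) := by omega
      rw [Fin.append_right, Fin.val_natAdd, if_neg h3, Nat.add_sub_cancel_left]
      simp only [Fin.ext_iff]

/-- the matrix as a list of rows -/
def matN (N M : ℕ) (tl hd : ℕ → ℕ) : List (List ℚ) :=
  (List.range (N + N + (N + N) + M)).map (fun p => (List.range (M + M)).map (entN N M tl hd p))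

theorem ofFn_twoMat {N M : ℕ} {tl hd : ℕ → ℕ} (htl : ∀ a < M, tl a < N)
    (hhd : ∀ a < M, hd a < N) :
    List.ofFn (fun i => List.ofFn (twoMat (fm htl) (fm hhd) i)) = matN N M tl hd := by
  unfold matN
  rw [← ofFn_range]
  refine congrArg List.ofFn (funext fun p => ?_)
  rw [← ofFn_range]
  exact congrArg List.ofFn (funext fun j => entN_eq htl hhd p j)

/-- supply of `d` units at `s` and demand of `d` units at `t` -/
def shipN (s t d v : ℕ) : ℚ := (if v = s then (d : ℚ) else 0) - (if v = t then (d : ℚ) else 0)

/-- the right-hand sides -/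
def rhsU (N M s₁ t₁ s₂ t₂ d₁ d₂ : ℕ) : List ℚ :=
  (List.range N).map (shipN s₁ t₁ d₁) ++ (List.range N).map (shipN s₂ t₂ d₂) ++
    ((List.range N).map (fun v => - shipN s₁ t₁ d₁ v) ++
      (List.range N).map (fun v => - shipN s₂ t₂ d₂ v)) ++ List.replicate M 1

theorem ofFn_ship {N : ℕ} (s t : Fin N) (d : ℕ) :
    List.ofFn (ship s t (d : ℚ)) = (List.range N).map (shipN s t d) := by
  rw [← ofFn_range]
  refine congrArg List.ofFn (funext fun v => ?_)
  unfold ship shipN
  simp only [Fin.ext_iff]

theorem ofFn_shipNeg {N : ℕ} (s t : Fin N) (d : ℕ) :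
    List.ofFn (fun v => - ship s t (d : ℚ) v) = (List.range N).map (fun v => - shipN s t d v) := by
  rw [← ofFn_range]
  refine congrArg List.ofFn (funext fun v => ?_)
  unfold ship shipN
  simp only [Fin.ext_iff]

private theorem tl_addCases {m n : ℕ} (f : Fin m → ℚ) (g : Fin n → ℚ) :
    List.ofFn (Fin.addCases f g : Fin (m + n) → ℚ) = List.ofFn f ++ List.ofFn g := by
  rw [List.ofFn_add]
  congr 1
  · exact congrArg List.ofFn (funext fun i => Fin.addCases_left i)
  · exact congrArg List.ofFn (funext fun i => Fin.addCases_right i)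

private theorem tl_appendNeg {m n : ℕ} (f : Fin m → ℚ) (g : Fin n → ℚ) :
    (fun p => - Fin.append f g p) = Fin.append (fun i => - f i) (fun i => - g i) := by
  funext p
  induction p using Fin.addCases with
  | left i => rw [Fin.append_left, Fin.append_left]
  | right i => rw [Fin.append_right, Fin.append_right]

theorem ofFn_unit_b {N M : ℕ} (tail head : Fin M → Fin N) (s₁ t₁ s₂ t₂ : Fin N) (d₁ d₂ : ℕ)
    (e : Fin M) : List.ofFn (unitFlowQ tail head s₁ t₁ s₂ t₂ d₁ d₂ e).b =
      rhsU N M s₁ t₁ s₂ t₂ d₁ d₂ := by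
  unfold unitFlowQ twoFlowQ rhsU
  dsimp only
  rw [tl_addCases, tl_addCases, tl_appendNeg, List.ofFn_fin_append, List.ofFn_fin_append,
    ofFn_ship, ofFn_ship, ofFn_shipNeg, ofFn_shipNeg, List.ofFn_const]

theorem ofFn_unit_c {N M : ℕ} (tail head : Fin M → Fin N) (s₁ t₁ s₂ t₂ : Fin N) (d₁ d₂ : ℕ)
    (e : Fin M) : List.ofFn (unitFlowQ tail head s₁ t₁ s₂ t₂ d₁ d₂ e).c =
      List.replicate M 0 ++ (List.range M).map (fun a => if a = (e : ℕ) then (1 : ℚ) else 0) := by
  unfold unitFlowQ twoFlowQ
  dsimp only
  rw [List.ofFn_fin_append]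
  congr 1
  · exact List.ofFn_const M 0
  · rw [← ofFn_range]
    refine congrArg List.ofFn (funext fun a => ?_)
    simp only [Fin.ext_iff]

/-! ### Size -/

private theorem tl_unit (N M : ℕ) (tail head : Fin M → Fin N) (i : Fin (N + N + (N + N) + M))
    (j : Fin (M + M)) :
    twoMat tail head i j = 0 ∨ twoMat tail head i j = 1 ∨ twoMat tail head i j = -1 := by
  have hi : ∀ (v : Fin N) (a : Fin M), Flw.inc tail head v a = 0 ∨ Flw.inc tail head v a = 1 ∨
      Flw.inc tail head v a = -1 := by
    intro v a
    unfold Flw.inc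
    split_ifs <;> norm_num
  have hc : ∀ (p : Fin (N + N)), consMat tail head p j = 0 ∨ consMat tail head p j = 1 ∨
      consMat tail head p j = -1 := by
    intro p
    unfold consMat
    induction p using Fin.addCases with
    | left v =>
      rw [Fin.addCases_left]
      induction j using Fin.addCases with
      | left a =>
        rw [Fin.append_left]
        exact hi v a
      | right a =>
        rw [Fin.append_right]
        exact Or.inl rfl
    | right v =>
      rw [Fin.addCases_right]
      induction j using Fin.addCases with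
      | left a =>
        rw [Fin.append_left]
        exact Or.inl rfl
      | right a =>
        rw [Fin.append_right]
        exact hi v a
  unfold twoMat
  induction i using Fin.addCases with
  | left p =>
    rw [Fin.addCases_left]
    induction p using Fin.addCases with
    | left p =>
      rw [Fin.addCases_left]
      exact hc p
    | right p =>
      rw [Fin.addCases_right]
      rcases hc p with h | h | h
      · exact Or.inl (by rw [h, neg_zero])
      · exact Or.inr (Or.inr (by rw [h]))
      · exact Or.inr (Or.inl (by rw [h, neg_neg]))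
  | right a =>
    rw [Fin.addCases_right]
    induction j using Fin.addCases with
    | left a' =>
      rw [Fin.append_left]
      split_ifs
      · exact Or.inr (Or.inl rfl)
      · exact Or.inl rfl
    | right a' =>
      rw [Fin.append_right]
      split_ifs
      · exact Or.inr (Or.inl rfl)
      · exact Or.inl rfl

/-- the size of the matrix -/
theorem size_two : ∃ P : Polynomial ℕ, ∀ (N M : ℕ) (tail head : Fin M → Fin N)
    (b₁ b₂ : Fin N → ℝ) (u : Fin M → ℝ) (cost : Fin (M + M) → ℝ),
    (twoFlow tail head b₁ b₂ u cost).size ≤ P.eval (N + M) := by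
  refine ⟨2 * (1 + 2 * Polynomial.X + 4 * Polynomial.X * (1 + 2 * Polynomial.X * 10)) + 1,
    fun N M tail head b₁ b₂ u cost => ?_⟩
  set D := twoFlow tail head b₁ b₂ u cost with hD
  have h1 : D.size = 2 * sz D.mat + 1 := length_wd _ _ _
  have h2 : sz D.mat = 1 + sz D.mat.1 + sz D.mat.2 := sz_prod D.mat
  have h3 : sz D.mat.1 = M + M := sz_nat (M + M)
  have h4 : sz D.mat.2 ≤ (N + N + (N + N) + M) * (1 + (M + M) * 10) := by
    have h5 : ∀ r ∈ D.mat.2, sz r ≤ (M + M) * 10 := by
      intro r hr
      obtain ⟨i, rfl⟩ := List.mem_ofFn.1 hr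
      have h6 : ∀ a ∈ List.ofFn (D.A i), sz a ≤ 9 := by
        intro a ha
        obtain ⟨j, rfl⟩ := List.mem_ofFn.1 ha
        exact sz_unit_rat (tl_unit N M tail head i j)
      have h7 := sz_le_of_forall h6
      rw [List.length_ofFn] at h7
      exact h7.trans (by omega)
    have h8 := sz_le_of_forall h5
    have h9 : D.mat.2.length = N + N + (N + N) + M := List.length_ofFn
    rw [h9] at h8
    exact h8.trans (by nlinarith)
  simp only [Polynomial.eval_add, Polynomial.eval_mul, Polynomial.eval_X, Polynomial.eval_ofNat,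
    Polynomial.eval_one]
  have h5 : (N + N + (N + N) + M) * (1 + (M + M) * 10) ≤
      4 * (N + M) * (1 + 2 * (N + M) * 10) := by
    refine Nat.mul_le_mul (by omega) (by omega)
  omega

/-- the number of nodes and arcs is at most the size of the matrix -/
theorem le_matSize {N M : ℕ} {lp : QLP (N + N + (N + N) + M) (M + M)} {v : Fin (M + M) → ℚ}
    {hv : lp.Vertex (toReal v)} : N + M ≤ matSize ⟨_, _, lp, v, hv⟩ := by
  have h1 : matSize ⟨_, _, lp, v, hv⟩ =
      2 * sz ((M + M : ℕ), List.ofFn fun i => List.ofFn (lp.A i)) + 1 := length_wd _ _ _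
  have h2 := sz_prod ((M + M : ℕ), List.ofFn fun i => List.ofFn (lp.A i))
  have h3 : (List.ofFn fun i => List.ofFn (lp.A i)).length ≤
      sz (List.ofFn fun i => List.ofFn (lp.A i)) := length_le_sz _
  rw [List.length_ofFn] at h3
  dsimp only at h2
  omega

end Pool.Agent.Simplex.Tc
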