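import Pool.Agent.Lib.MP_4d246d_lc.Tc.Red
import Pool.Agent.Lib.MP_4d246d_lc.Tc.Lists
import Pool.Agent.Lib.MP_4d246d_lc.EB.OnePoly

/-!
# The reduction to two-commodity flow programs is computed in polynomial time
-/

namespace Pool.Agent.Simplex.Tc

open Pool.Agent.Lib.PolyTime Pool.Agent.Simplex.QP Pool.Agent.Simplex.EB Turing

section

variable {α : Type*} [TEnc α] {X : α → Mat} {b : α → List ℚ} {e t a K p v g j : α → ℕ}

private theorem py_col (hX : PolyF X) (he : PolyF e) (ht : PolyF t) :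
    PolyF (fun x => col (X x) (e x) (t x)) :=
  PolyF.ite (ht.natEq (PolyF.const 0)) (Tab.polyF_hgt hX he)
    (PolyF.ite (ht.natEq (PolyF.const 1))
      ((((PolyF.const 2).natMul hX.snd.length).natAdd (Tab.polyF_slR hX)).natAdd
        (he.natDiv (PolyF.const 2)))
      ((((PolyF.const 2).natMul hX.snd.length).natAdd (Tab.polyF_slR hX)).natAdd
        ((Tab.polyF_slR hX).natAdd (Tab.polyF_colc hX he))))

private theorem py_wM (hX : PolyF X) : PolyF (fun x => wM (X x)) :=
  (PolyF.const 3).natMul (Tab.polyF_slr hX)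

private theorem py_wN (hX : PolyF X) : PolyF (fun x => wN (X x)) :=
  (Tab.polyF_slr hX).natAdd (Tab.polyF_slc hX)

private theorem py_whd (hX : PolyF X) (ha : PolyF a) : PolyF (fun x => whd (X x) (a x)) :=
  (Tab.polyF_slr hX).natAdd (py_col hX (ha.natDiv (PolyF.const 3)) (ha.natMod (PolyF.const 3)))

private theorem py_wpos (hX : PolyF X) (ha : PolyF a) (hK : PolyF K) :
    PolyF (fun x => wpos (X x) (a x) (K x)) :=
  polyF_ix (Tab.polyF_slc hX) (ha.natDiv (PolyF.const 3))
    (py_col hX (ha.natDiv (PolyF.const 3)) (ha.natMod (PolyF.const 3))) hK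

private theorem py_tpos (hX : PolyF X) (hj : PolyF j) : PolyF (fun x => tpos (X x) (j x)) :=
  PolyF.ite (hj.natLt (py_wM hX)) (py_wpos hX hj (PolyF.const 1))
    (py_wpos hX (hj.natSub (py_wM hX)) (PolyF.const 2))

private theorem py_lineQ (hX : PolyF X) (hb : PolyF b) (hp : PolyF p) :
    PolyF (fun x => lineQ (X x) (b x) (p x)) := by
  have hX1 : PolyF (fun q : α × ℕ => X q.1) := hX.comp PolyF.fst'
  have hcv : PolyF (fun _ : (α × ℕ) × ℕ => (0 : ℚ)) := PolyF.const 0
  have hf : PolyF (fun x : α × ℕ => Tab.tabQ (X x.1) (fun _ => 0) x.2) :=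
    Tab.polyF_tabQ (X := fun x : α × ℕ => X x.1) (w := fun _ : α × ℕ => fun _ => 0)
      (q := fun x => x.2) hX1 hcv PolyF.snd'
  exact (polyF_lsumQ (f := fun x => Tab.tabQ (X x) (fun _ => 0)) (Tab.polyF_slr hX)
    (Tab.polyF_slc hX) hp hf).ratAdd (Tab.polyF_corrQ hX hb hp)

private theorem py_uB (hX : PolyF X) (hb : PolyF b) (hK : PolyF K) (hv : PolyF v) :
    PolyF (fun x => uB (X x) (b x) (K x) (v x)) := by
  have hr := Tab.polyF_slr hX
  have hc := Tab.polyF_slc hX
  have hrc := hr.natMul hc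
  have h3 : PolyF (fun _ : α => 3) := PolyF.const 3
  exact PolyF.ite (hv.natLt hr)
    (py_lineQ hX hb ((hrc.natAdd (h3.natMul hc)).natAdd ((h3.natMul hv).natAdd hK)))
    (py_lineQ hX hb (hrc.natAdd ((h3.natMul (hv.natSub hr)).natAdd hK))).ratNeg

private theorem py_gk (hg : PolyF g) : PolyF (fun x => gk (g x)) :=
  (hg.natDiv (PolyF.const 4)).natMod (PolyF.const 2)

private theorem py_bk (hX : PolyF X) (hb : PolyF b) (hK : PolyF K) (hv : PolyF v) :
    PolyF (fun x => bk (uB (X x) (b x) 1) (uB (X x) (b x) 2) (K x) (v x)) :=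
  PolyF.ite (hK.natEq (PolyF.const 0)) (py_uB hX hb (PolyF.const 1) hv)
    (py_uB hX hb (PolyF.const 2) hv)

private theorem py_src (hX : PolyF X) (hb : PolyF b) (hg : PolyF g) :
    PolyF (fun x => decide (Src (uB (X x) (b x) 1) (uB (X x) (b x) 2) (g x))) :=
  (PolyF.decide_and (((hg.natDiv (PolyF.const 2)).natMod (PolyF.const 2)).natEq (PolyF.const 1))
    ((hg.natMod (PolyF.const 2)).ratOfNat.ratLt
      (py_bk hX hb (py_gk hg) (hg.natDiv (PolyF.const 8))).ratNeg)).decide_congr fun _ => Iff.rfl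

private theorem py_snk (hX : PolyF X) (hb : PolyF b) (hg : PolyF g) :
    PolyF (fun x => decide (Snk (uB (X x) (b x) 1) (uB (X x) (b x) 2) (g x))) :=
  (PolyF.decide_and (((hg.natDiv (PolyF.const 2)).natMod (PolyF.const 2)).natEq (PolyF.const 0))
    ((hg.natMod (PolyF.const 2)).ratOfNat.ratLt
      (py_bk hX hb (py_gk hg) (hg.natDiv (PolyF.const 8))))).decide_congr fun _ => Iff.rfl

private theorem py_uTl (hX : PolyF X) (hb : PolyF b) (ha : PolyF a) :
    PolyF (fun x => uTl (X x) (b x) (a x)) := by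
  have hg : PolyF (fun x => a x - wM (X x)) := ha.natSub (py_wM hX)
  exact PolyF.ite (ha.natLt (py_wM hX)) (ha.natDiv (PolyF.const 3))
    (PolyF.ite (py_src hX hb hg) (hg.natDiv (PolyF.const 8))
      ((py_wN hX).natAdd ((PolyF.const 2).natMul (py_gk hg))))

private theorem py_uHd (hX : PolyF X) (hb : PolyF b) (ha : PolyF a) :
    PolyF (fun x => uHd (X x) (b x) (a x)) := by
  have hg : PolyF (fun x => a x - wM (X x)) := ha.natSub (py_wM hX)
  exact PolyF.ite (ha.natLt (py_wM hX)) (py_whd hX ha)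
    (PolyF.ite (py_snk hX hb hg) (hg.natDiv (PolyF.const 8))
      ((py_wN hX).natAdd (((PolyF.const 2).natMul (py_gk hg)).natAdd (PolyF.const 1))))

private theorem py_stD (hX : PolyF X) (hb : PolyF b) (k : ℕ) :
    PolyF (fun x => stD (wN (X x)) (uB (X x) (b x) 1) (uB (X x) (b x) 2) k) := by
  refine (((PolyF.const 8).natMul (py_wN hX)).range.filter (p := fun x g =>
    decide (gk g = k ∧ ¬ Src (uB (X x) (b x) 1) (uB (X x) (b x) 2) g)) ?_).length
  exact PolyF.decide_and ((py_gk PolyF.snd').natEq (PolyF.const k))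
    (py_src (hX.comp PolyF.fst') (hb.comp PolyF.fst') PolyF.snd').decide_not

private theorem py_stVal {M M' : α → ℕ} {f : α → ℕ → ℚ} (hM : PolyF M) (hM' : PolyF M')
    (hf : PolyF (fun q : α × ℕ => f q.1 q.2)) (hj : PolyF j) :
    PolyF (fun x => stVal (M x) (M' x) (f x) (j x)) := by
  have h1 : ∀ {k : α → ℕ}, PolyF k → PolyF (fun x => f x (k x)) := fun {k} hk =>
    hf.comp (g := fun x => (x, k x)) (PolyF.id.pair hk)
  have hd := hj.natSub hM'
  exact PolyF.ite (hj.natLt hM')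
    (PolyF.ite (hj.natLt hM) (h1 hj)
      (PolyF.ite ((py_gk (hj.natSub hM)).natEq (PolyF.const 0)) (PolyF.const 1)
        (PolyF.const 0)))
    (PolyF.ite (hd.natLt hM) (h1 (hM.natAdd hd))
      (PolyF.ite ((py_gk (hd.natSub hM)).natEq (PolyF.const 1)) (PolyF.const 1)
        (PolyF.const 0)))

private theorem py_uV {w : α → List ℚ} (hX : PolyF X) (hw : PolyF w) (hj : PolyF j) :
    PolyF (fun x => uV (X x) (fun k => (w x).getD k 0) (j x)) := by
  have hX1 : PolyF (fun q : α × ℕ => X q.1) := hX.comp PolyF.fst'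
  have hw2 : PolyF (fun q : (α × ℕ) × ℕ => (w q.1.1).getD q.2 0) :=
    (hw.comp (PolyF.fst'.comp PolyF.fst')).getDL PolyF.snd' (PolyF.const 0)
  refine py_stVal (f := fun x i => Tab.tabQ (X x) (fun k => (w x).getD k 0) (tpos (X x) i))
    (py_wM hX) ((py_wM hX).natAdd ((PolyF.const 8).natMul (py_wN hX))) ?_ hj
  exact Tab.polyF_tabQ (X := fun q : α × ℕ => X q.1)
    (w := fun q : α × ℕ => fun k => (w q.1).getD k 0) (q := fun q : α × ℕ => tpos (X q.1) q.2)
    hX1 hw2 (py_tpos hX1 PolyF.snd')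

variable {N M : α → ℕ} {tl hd : α → ℕ → ℕ}

private theorem py_app {f : α → ℕ → ℕ} (hf : PolyF (fun q : α × ℕ => f q.1 q.2))
    (ha : PolyF a) : PolyF (fun x => f x (a x)) :=
  hf.comp (g := fun x => (x, a x)) (PolyF.id.pair ha)

private theorem py_incN (htl : PolyF (fun q : α × ℕ => tl q.1 q.2))
    (hhd : PolyF (fun q : α × ℕ => hd q.1 q.2)) (hv : PolyF v) (ha : PolyF a) :
    PolyF (fun x => incN (tl x) (hd x) (v x) (a x)) :=
  (polyF_ind ((py_app htl ha).natEq hv)).ratSub (polyF_ind ((py_app hhd ha).natEq hv))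

private theorem py_consN (hN : PolyF N) (hM : PolyF M)
    (htl : PolyF (fun q : α × ℕ => tl q.1 q.2)) (hhd : PolyF (fun q : α × ℕ => hd q.1 q.2))
    (hp : PolyF p) (hj : PolyF j) :
    PolyF (fun x => consN (N x) (M x) (tl x) (hd x) (p x) (j x)) :=
  PolyF.ite (hp.natLt hN)
    (PolyF.ite (hj.natLt hM) (py_incN htl hhd hp hj) (PolyF.const 0))
    (PolyF.ite (hj.natLt hM) (PolyF.const 0)
      (py_incN htl hhd (hp.natSub hN) (hj.natSub hM)))

private theorem py_entN (hN : PolyF N) (hM : PolyF M)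
    (htl : PolyF (fun q : α × ℕ => tl q.1 q.2)) (hhd : PolyF (fun q : α × ℕ => hd q.1 q.2))
    (hp : PolyF p) (hj : PolyF j) :
    PolyF (fun x => entN (N x) (M x) (tl x) (hd x) (p x) (j x)) := by
  have h2 := hN.natAdd hN
  have h4 := h2.natAdd h2
  exact PolyF.ite (hp.natLt h2) (py_consN hN hM htl hhd hp hj)
    (PolyF.ite (hp.natLt h4) (py_consN hN hM htl hhd (hp.natSub h2) hj).ratNeg
      (PolyF.ite (hj.natLt hM) (polyF_ind (hj.natEq (hp.natSub h4)))
        (polyF_ind ((hj.natSub hM).natEq (hp.natSub h4)))))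

private theorem py_lift {f : α → ℕ → ℕ} (hf : PolyF (fun q : α × ℕ => f q.1 q.2)) :
    PolyF (fun z : (α × ℕ) × ℕ => f z.1.1 z.2) := by
  have e0 : PolyF (fun z : (α × ℕ) × ℕ => (z.1.1, z.2)) :=
    (PolyF.fst'.comp PolyF.fst').pair PolyF.snd'
  exact PolyF.comp hf e0

private theorem py_row (hN : PolyF N) (hM : PolyF M)
    (htl : PolyF (fun q : α × ℕ => tl q.1 q.2)) (hhd : PolyF (fun q : α × ℕ => hd q.1 q.2))
    (hp : PolyF p) :
    PolyF (fun x => (List.range (M x + M x)).map (entN (N x) (M x) (tl x) (hd x) (p x))) := by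
  have hN1 : PolyF (fun z : α × ℕ => N z.1) := hN.comp PolyF.fst'
  have hM1 : PolyF (fun z : α × ℕ => M z.1) := hM.comp PolyF.fst'
  have hp1 : PolyF (fun z : α × ℕ => p z.1) := hp.comp PolyF.fst'
  have hj1 : PolyF (fun z : α × ℕ => z.2) := PolyF.snd'
  have h := py_entN (tl := fun z : α × ℕ => tl z.1) (hd := fun z : α × ℕ => hd z.1) hN1 hM1
    (py_lift htl) (py_lift hhd) hp1 hj1
  exact (hM.natAdd hM).range.map (h := fun x j => entN (N x) (M x) (tl x) (hd x) (p x) j) h

private theorem py_matN (hN : PolyF N) (hM : PolyF M)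
    (htl : PolyF (fun q : α × ℕ => tl q.1 q.2)) (hhd : PolyF (fun q : α × ℕ => hd q.1 q.2)) :
    PolyF (fun x => matN (N x) (M x) (tl x) (hd x)) := by
  have h2 := hN.natAdd hN
  have hN1 : PolyF (fun z : α × ℕ => N z.1) := hN.comp PolyF.fst'
  have hM1 : PolyF (fun z : α × ℕ => M z.1) := hM.comp PolyF.fst'
  have hp1 : PolyF (fun z : α × ℕ => z.2) := PolyF.snd'
  have h := py_row (tl := fun z : α × ℕ => tl z.1) (hd := fun z : α × ℕ => hd z.1) hN1 hM1
    (py_lift htl) (py_lift hhd) hp1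
  exact ((h2.natAdd h2).natAdd hM).range.map (h := fun x p =>
    (List.range (M x + M x)).map (entN (N x) (M x) (tl x) (hd x) p)) h

private theorem py_shipN {s t d : α → ℕ} (hs : PolyF s) (ht : PolyF t) (hd : PolyF d)
    (hv : PolyF v) : PolyF (fun x => shipN (s x) (t x) (d x) (v x)) :=
  (PolyF.ite (hv.natEq hs) hd.ratOfNat (PolyF.const 0)).ratSub
    (PolyF.ite (hv.natEq ht) hd.ratOfNat (PolyF.const 0))

private theorem py_shipL {s t d : α → ℕ} (hN : PolyF N) (hs : PolyF s) (ht : PolyF t)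
    (hd : PolyF d) : PolyF (fun x => (List.range (N x)).map (shipN (s x) (t x) (d x))) :=
  hN.range.map (h := fun x v => shipN (s x) (t x) (d x) v)
    (py_shipN (hs.comp PolyF.fst') (ht.comp PolyF.fst') (hd.comp PolyF.fst') PolyF.snd')

private theorem py_shipNeg {s t d : α → ℕ} (hN : PolyF N) (hs : PolyF s) (ht : PolyF t)
    (hd : PolyF d) :
    PolyF (fun x => (List.range (N x)).map (fun v => - shipN (s x) (t x) (d x) v)) :=
  hN.range.map (h := fun x v => - shipN (s x) (t x) (d x) v)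
    (py_shipN (hs.comp PolyF.fst') (ht.comp PolyF.fst') (hd.comp PolyF.fst') PolyF.snd').ratNeg

private theorem py_rhsU {s₁ t₁ s₂ t₂ d₁ d₂ : α → ℕ} (hN : PolyF N) (hM : PolyF M)
    (hs₁ : PolyF s₁) (ht₁ : PolyF t₁) (hs₂ : PolyF s₂) (ht₂ : PolyF t₂) (hd₁ : PolyF d₁)
    (hd₂ : PolyF d₂) :
    PolyF (fun x => rhsU (N x) (M x) (s₁ x) (t₁ x) (s₂ x) (t₂ x) (d₁ x) (d₂ x)) :=
  (((py_shipL hN hs₁ ht₁ hd₁).append (py_shipL hN hs₂ ht₂ hd₂)).append
    ((py_shipNeg hN hs₁ ht₁ hd₁).append (py_shipNeg hN hs₂ ht₂ hd₂))).append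
    (PolyF.replicate hM (PolyF.const 1))

end

/-! ### The data -/

/-- the data of the final program -/
private def uData (X : Mat) (b : List ℚ) (v₀ : ℕ) (w : List ℚ) :
    ℕ × List (List ℚ) × List ℚ × List ℚ × List ℚ :=
  (wM X + 8 * wN X + (wM X + 8 * wN X),
    matN (wN X + 4) (wM X + 8 * wN X) (uTl X b) (uHd X b),
    rhsU (wN X + 4) (wM X + 8 * wN X) (wN X) (wN X + 1) (wN X + 2) (wN X + 3)
      (stD (wN X) (uB X b 1) (uB X b 2) 0) (stD (wN X) (uB X b 1) (uB X b 2) 1),
    List.replicate (wM X + 8 * wN X) 0 ++ (List.range (wM X + 8 * wN X)).map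
      (fun a => if a = arc0 v₀ X.2.length then (1 : ℚ) else 0),
    (List.range (wM X + 8 * wN X + (wM X + 8 * wN X))).map (uV X (fun k => w.getD k 0)))

private theorem uLP_data (X : Mat) (b : List ℚ) {v₀ : ℕ} (hlt : arc0 v₀ X.2.length < wM X)
    {n : ℕ} (w : Fin n → ℚ) (hv : (uLP X b ⟨_, hlt⟩).Vertex (toReal fun j =>
      uV X (fun k => if h : k < n then w ⟨k, h⟩ else 0) j)) :
    (⟨_, _, uLP X b ⟨_, hlt⟩, fun j => uV X (fun k => if h : k < n then w ⟨k, h⟩ else 0) j, hv⟩ :
      Input).data = uData X b v₀ (List.ofFn w) := by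
  unfold Input.data uData
  refine Prod.ext rfl (Prod.ext ?_ (Prod.ext ?_ (Prod.ext ?_ ?_)))
  · exact ofFn_twoMat (uTl_lt X b) (uHd_lt X b)
  · exact ofFn_unit_b _ _ _ _ _ _ _ _ _
  · exact ofFn_unit_c _ _ _ _ _ _ _ _ _
  · dsimp only
    rw [← ofFn_range]
    refine congrArg List.ofFn (funext fun j => ?_)
    congr 1
    funext k
    by_cases h : k < n
    · rw [dif_pos h, List.getD_eq_getElem _ _ (by simpa using h), List.getElem_ofFn]
    · rw [dif_neg h, List.getD_eq_default _ _ (by simpa using h)]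

private theorem redG_data {J : Input} {v₀ : ℕ} (h : OkV J v₀) : (redG h).data =
    uData (ofQ J.lp).mat (List.ofFn J.lp.b) v₀ (List.ofFn J.v) :=
  uLP_data (ofQ J.lp).mat (List.ofFn J.lp.b) (h.arc h.lt) J.v (redG h).vertex

private theorem py_uData {α : Type*} [TEnc α] {X : α → Mat} {b w : α → List ℚ} {v₀ : α → ℕ}
    (hX : PolyF X) (hb : PolyF b) (hv : PolyF v₀) (hw : PolyF w) :
    PolyF (fun x => uData (X x) (b x) (v₀ x) (w x)) := by
  have hN := py_wN hX
  have hM := (py_wM hX).natAdd ((PolyF.const 8).natMul hN)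
  have hX1 : PolyF (fun q : α × ℕ => X q.1) := hX.comp PolyF.fst'
  have hb1 : PolyF (fun q : α × ℕ => b q.1) := hb.comp PolyF.fst'
  have hc : PolyF (fun x => (List.range (wM (X x) + 8 * wN (X x))).map
      (fun a => if a = arc0 (v₀ x) (X x).2.length then (1 : ℚ) else 0)) := by
    refine hM.range.map (h := fun x a => if a = arc0 (v₀ x) (X x).2.length then (1 : ℚ) else 0) ?_
    exact polyF_ind (PolyF.snd'.natEq (((PolyF.const 6).natMul
      ((hv.comp PolyF.fst').natMul hX1.snd.length)).natAdd (PolyF.const 1)))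
  have hV : PolyF (fun x => (List.range (wM (X x) + 8 * wN (X x) + (wM (X x) +
      8 * wN (X x)))).map (uV (X x) (fun k => (w x).getD k 0))) := by
    refine (hM.natAdd hM).range.map (h := fun x j => uV (X x) (fun k => (w x).getD k 0) j) ?_
    exact py_uV (X := fun q : α × ℕ => X q.1) (w := fun q : α × ℕ => w q.1)
      (j := fun q => q.2) hX1 (hw.comp PolyF.fst') PolyF.snd'
  exact (hM.natAdd hM).pair ((py_matN (hN.natAdd (PolyF.const 4)) hM
    (py_uTl (X := fun q : α × ℕ => X q.1) (b := fun q => b q.1) (a := fun q => q.2)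
      hX1 hb1 PolyF.snd')
    (py_uHd (X := fun q : α × ℕ => X q.1) (b := fun q => b q.1) (a := fun q => q.2)
      hX1 hb1 PolyF.snd')).pair
    ((py_rhsU (hN.natAdd (PolyF.const 4)) hM hN (hN.natAdd (PolyF.const 1))
      (hN.natAdd (PolyF.const 2)) (hN.natAdd (PolyF.const 3)) (py_stD hX hb 0)
      (py_stD hX hb 1)).pair (((PolyF.replicate hM (PolyF.const 0)).append hc).pair hV)))

/-- the input is computed in polynomial time -/
theorem polyF_redU : PolyF redU := by
  have hJ : PolyF (fun I : {I : Input // IsTransport I} => redI (Tab.redH I)) := Tab.polyF_redIH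
  have hd := polyF_data.comp hJ
  have hn : PolyF (fun I : {I : Input // IsTransport I} => I.1.n + 1) :=
    ((polyF_data.comp polyF_sub).fst).natAdd (PolyF.const 1)
  have h1 : PolyF (fun I : {I : Input // IsTransport I} => (redU I).data) :=
    (py_uData (polyF_mat.comp hJ) hd.snd.snd.fst hn hd.snd.snd.snd.snd).congr
      fun I => (redG_data (okV_red I)).symm
  exact h1.of_enc (fun x => x) (fun _ => rfl) fun _ => rfl

/-! ### The way back -/

/-- the list form of the way back -/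
def backLU (I : {I : Input // IsTransport I}) (w : List ℚ) : List ℚ :=
  (List.range I.1.n).map fun j =>
    2 ^ (kOf I.1 + 1) * w.getD (upos (ofQ (spI I).lp).mat j) 0

theorem backV_getD {J : Input} {v₀ : ℕ} (h : OkV J v₀) (w : Fin (redG h).n → ℚ) (j : Fin J.n) :
    backV h w j = (List.ofFn w).getD (upos (ofQ J.lp).mat j) 0 := by
  unfold backV
  split_ifs with h'
  · rw [List.getD_eq_getElem _ _ (by rw [List.length_ofFn]; exact h'), List.getElem_ofFn]
  · rw [List.getD_eq_default _ _ (by rw [List.length_ofFn]; exact not_lt.1 h')]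

theorem ofFn_backU (I : {I : Input // IsTransport I}) (w : Fin (redU I).n → ℚ) :
    List.ofFn (backU I w) = backLU I (List.ofFn w) := by
  unfold backLU
  rw [← ofFn_range]
  refine congrArg List.ofFn (funext fun j => ?_)
  exact congrArg (fun t : ℚ => 2 ^ (kOf I.1 + 1) * t) (backV_getD (okV_red I) w _)

theorem polyF_backLU : PolyF (fun x : {I : Input // IsTransport I} × List ℚ =>
    backLU x.1 x.2) := by
  have hI : PolyF (fun x : {I : Input // IsTransport I} × List ℚ => x.1.1) :=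
    polyF_sub.comp PolyF.fst'
  have hn : PolyF (fun x : {I : Input // IsTransport I} × List ℚ => x.1.1.n) :=
    (polyF_data.comp hI).fst
  refine hn.range.map (h := fun (x : {I : Input // IsTransport I} × List ℚ) j =>
    2 ^ (kOf x.1.1 + 1) * x.2.getD (upos (ofQ (spI x.1).lp).mat j) 0) ?_
  have h1 : PolyF (fun p : ({I : Input // IsTransport I} × List ℚ) × ℕ => p.1.1) :=
    PolyF.fst'.comp PolyF.fst'
  have hX : PolyF (fun p : ({I : Input // IsTransport I} × List ℚ) × ℕ =>
      (ofQ (redI (Tab.redH p.1.1)).lp).mat) := polyF_mat.comp (Tab.polyF_redIH.comp h1)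
  have hw : PolyF (fun p : ({I : Input // IsTransport I} × List ℚ) × ℕ => p.1.2) :=
    PolyF.snd'.comp PolyF.fst'
  have hu : PolyF (fun p : ({I : Input // IsTransport I} × List ℚ) × ℕ =>
      upos (ofQ (redI (Tab.redH p.1.1)).lp).mat p.2) :=
    ((py_wM hX).natAdd ((PolyF.const 8).natMul (py_wN hX))).natAdd
      (((PolyF.const 6).natMul (PolyF.snd'.natMul hX.snd.length)).natAdd (PolyF.const 1))
  exact (polyF_ratTwoPow ((polyF_kOf.comp (polyF_sub.comp h1)).natAdd (PolyF.const 1))).ratMul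
    (hw.getDL hu (PolyF.const 0))

end Pool.Agent.Simplex.Tc
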