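import Pool.Agent.Lib.MP_4d246d_lc.Tc.Arcs
import Pool.Agent.Lib.MP_4d246d_lc.Tc.Basic

/-!
# Two-commodity flows with supplies and two-commodity flows with sources and sinks

Proof. The arcs `a < M` are the old ones; the arc `M + g`, `g < 8 N`, belongs to the node `v = g / 8`
and to the commodity `k = gk g`; it leads from `S_k = N + 2 k` to `v` (`Snk g`), or from `v` to
`T_k = N + 2 k + 1` (`Src g`), or from `S_k` to `T_k`. So each of these arcs leaves `S_k` or enters
`T_k`. The map is `x ↦ stVal M (M + 8 N) (nx x)`; its linear part is injective.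
1. `x` feasible: the number of the arcs from `S_k` to `v` minus the number of the arcs from `v` to
   `T_k` is `b_k v` (an integer, `|b_k v| ≤ 2`); so the conservation equations hold at `v`. At
   `S_k` the outflow of the commodity `k` is `stD N b₁ b₂ k`, by definition, and that of the other
   one is `0`. At `T_k`: the sum over all nodes of outflow minus inflow is `0`, for each
   commodity (this gives the equation at `T_k` from the other ones). Capacities: `1 + 0 ≤ 1`.
2. `z` feasible: the flows of the commodity `k` on the arcs out of `S_k` are at most `1` and their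
   sum is the number of these arcs, so all are `1` (no arc enters `S_k`); then the flow of the other
   commodity on them is `0`. The same at `T_k` (the number of the arcs into `T_k` is also
   `stD N b₁ b₂ k`, by the first part for the sum over all nodes: `∑ b_k v = 0`). So `z` is the
   image of its restriction to the old arcs; the conservation equations at `v < N` give those of
   the old digraph.
-/

namespace Pool.Agent.Simplex.Tc

open Pool.Agent.Lib.PolyTime Pool.Agent.Simplex.QP Pool.Agent.Simplex.EB Turing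

/-- a vector as a function on the natural numbers -/
def ex {G : Type*} [Zero G] {n : ℕ} (y : Fin n → G) (q : ℕ) : G :=
  if h : q < n then y ⟨q, h⟩ else 0

private theorem ex_fin {n : ℕ} (y : Fin n → ℝ) (j : Fin n) : ex y j = y j := by
  unfold ex
  rw [dif_pos j.2]

private theorem ex_eta {n : ℕ} (y : Fin n → ℝ) : (fun j : Fin n => ex y j) = y := by
  funext j
  exact ex_fin y j

/-! ### The gadget -/

section Gadget

variable {N M : ℕ} {tl hd : ℕ → ℕ} {b₁ b₂ : ℕ → ℚ}

private theorem tl_g (M' : ℕ) (tl : ℕ → ℕ) (b₁ b₂ : ℕ → ℚ) (g : ℕ) :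
    stTl N M' tl b₁ b₂ (M' + g) = if Src b₁ b₂ g then g / 8 else N + 2 * gk g := by
  unfold stTl
  rw [if_neg (by omega), Nat.add_sub_cancel_left]

private theorem hd_g (M' : ℕ) (hd : ℕ → ℕ) (b₁ b₂ : ℕ → ℚ) (g : ℕ) :
    stHd N M' hd b₁ b₂ (M' + g) = if Snk b₁ b₂ g then g / 8 else N + (2 * gk g + 1) := by
  unfold stHd
  rw [if_neg (by omega), Nat.add_sub_cancel_left]

/-- outflow minus inflow, old arcs and new arcs -/
private theorem dv_st (y : ℕ → ℝ) (v : ℕ) :
    dv (M + 8 * N) (stTl N M tl b₁ b₂) (stHd N M hd b₁ b₂) y v =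
      dv M tl hd y v + ∑ g ∈ Finset.range (8 * N),
        ((if (if Src b₁ b₂ g then g / 8 else N + 2 * gk g) = v then y (M + g) else 0) -
          (if (if Snk b₁ b₂ g then g / 8 else N + (2 * gk g + 1)) = v then y (M + g) else 0)) := by
  unfold dv
  rw [Finset.sum_range_add]
  congr 1
  · refine Finset.sum_congr rfl fun a ha => ?_
    have ha := Finset.mem_range.1 ha
    unfold stTl stHd
    rw [if_pos ha, if_pos ha]
  · refine Finset.sum_congr rfl fun g _ => ?_
    rw [tl_g, hd_g]

private theorem sum_blocks (F : ℕ → ℝ) (N : ℕ) : ∑ g ∈ Finset.range (8 * N), F g =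
    ∑ u ∈ Finset.range N, ∑ r ∈ Finset.range 8, F (8 * u + r) := by
  induction N with
  | zero => simp
  | succ N ih =>
    rw [Nat.mul_succ, Finset.sum_range_add, ih]
    exact (Finset.sum_range_succ (fun u => ∑ r ∈ Finset.range 8, F (8 * u + r)) N).symm

/-- the values on the arcs of the gadget -/
noncomputable def gw (k g : ℕ) : ℝ := if gk g = k then 1 else 0

private theorem gk_block {v r : ℕ} (hr : r < 8) : gk (8 * v + r) = r / 4 := by
  unfold gk
  omega

private theorem src_block {v r : ℕ} (hr : r < 8) : Src b₁ b₂ (8 * v + r) ↔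
    r / 2 % 2 = 1 ∧ ((r % 2 : ℕ) : ℚ) < - bk b₁ b₂ (r / 4) v := by
  unfold Src
  rw [gk_block hr]
  have h1 : (8 * v + r) / 2 % 2 = r / 2 % 2 := by omega
  have h2 : (8 * v + r) % 2 = r % 2 := by omega
  have h3 : (8 * v + r) / 8 = v := by omega
  rw [h1, h2, h3]

private theorem snk_block {v r : ℕ} (hr : r < 8) : Snk b₁ b₂ (8 * v + r) ↔
    r / 2 % 2 = 0 ∧ ((r % 2 : ℕ) : ℚ) < bk b₁ b₂ (r / 4) v := by
  unfold Snk
  rw [gk_block hr]
  have h1 : (8 * v + r) / 2 % 2 = r / 2 % 2 := by omega
  have h2 : (8 * v + r) % 2 = r % 2 := by omega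
  have h3 : (8 * v + r) / 8 = v := by omega
  rw [h1, h2, h3]

private theorem count_aux {z : ℤ} (hz : |z| ≤ 2) :
    ((if (0 : ℚ) < -(z : ℚ) then (1 : ℝ) else 0) + (if (1 : ℚ) < -(z : ℚ) then 1 else 0)) -
      ((if (0 : ℚ) < z then 1 else 0) + (if (1 : ℚ) < z then 1 else 0)) = - (z : ℝ) := by
  obtain ⟨h1, h2⟩ := abs_le.1 hz
  interval_cases z <;> norm_num

/-- the sum over the arcs of one node -/
private theorem block_sum {v k : ℕ} (hk : k < 2) {z : ℤ} (hz : |z| ≤ 2)
    (h : bk b₁ b₂ k v = z) :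
    ∑ r ∈ Finset.range 8, ((if Src b₁ b₂ (8 * v + r) then gw k (8 * v + r) else 0) -
      (if Snk b₁ b₂ (8 * v + r) then gw k (8 * v + r) else 0)) = - (z : ℝ) := by
  have h0 : ∀ r ∈ Finset.range 8,
      ((if Src b₁ b₂ (8 * v + r) then gw k (8 * v + r) else 0) -
      (if Snk b₁ b₂ (8 * v + r) then gw k (8 * v + r) else 0)) =
      ((if r / 2 % 2 = 1 ∧ ((r % 2 : ℕ) : ℚ) < - bk b₁ b₂ (r / 4) v then
          (if r / 4 = k then (1 : ℝ) else 0) else 0) -
        (if r / 2 % 2 = 0 ∧ ((r % 2 : ℕ) : ℚ) < bk b₁ b₂ (r / 4) v then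
          (if r / 4 = k then (1 : ℝ) else 0) else 0)) := by
    intro r hr
    have hr := Finset.mem_range.1 hr
    unfold gw
    rw [gk_block hr]
    congr 1
    · exact if_congr (src_block hr) rfl rfl
    · exact if_congr (snk_block hr) rfl rfl
  rw [Finset.sum_congr rfl h0, ← count_aux hz]
  have hk' : k = 0 ∨ k = 1 := by omega
  rcases hk' with rfl | rfl
  · simp [Finset.sum_range_succ, h]
  · simp [Finset.sum_range_succ, h]

/-- the gadget at the node `v < N` -/
private theorem gad_lt {v k : ℕ} (hv : v < N) (hk : k < 2) {z : ℤ} (hz : |z| ≤ 2)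
    (h : bk b₁ b₂ k v = z) :
    ∑ g ∈ Finset.range (8 * N),
        ((if (if Src b₁ b₂ g then g / 8 else N + 2 * gk g) = v then gw k g else 0) -
          (if (if Snk b₁ b₂ g then g / 8 else N + (2 * gk g + 1)) = v then gw k g else 0)) =
      - (z : ℝ) := by
  rw [sum_blocks, Finset.sum_eq_single v]
  · rw [← block_sum (v := v) hk hz h]
    refine Finset.sum_congr rfl fun r hr => ?_
    have hr := Finset.mem_range.1 hr
    have h3 : (8 * v + r) / 8 = v := by omega
    rw [h3]
    congr 1
    · by_cases h4 : Src b₁ b₂ (8 * v + r)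
      · rw [if_pos h4, if_pos h4, if_pos rfl]
      · rw [if_neg h4, if_neg h4, if_neg (by omega)]
    · by_cases h4 : Snk b₁ b₂ (8 * v + r)
      · rw [if_pos h4, if_pos h4, if_pos rfl]
      · rw [if_neg h4, if_neg h4, if_neg (by omega)]
  · intro u hu huv
    refine Finset.sum_eq_zero fun r hr => ?_
    have hr := Finset.mem_range.1 hr
    have h3 : (8 * u + r) / 8 = u := by omega
    rw [h3]
    have h5 : (if Src b₁ b₂ (8 * u + r) then u else N + 2 * gk (8 * u + r)) ≠ v := by
      split_ifs <;> omega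
    have h6 : (if Snk b₁ b₂ (8 * u + r) then u else N + (2 * gk (8 * u + r) + 1)) ≠ v := by
      split_ifs <;> omega
    rw [if_neg h5, if_neg h6, sub_zero]
  · intro h3
    exact absurd (Finset.mem_range.2 hv) h3

/-- the gadget at a source -/
private theorem gad_S {y : ℕ → ℝ} {k : ℕ} :
    ∑ g ∈ Finset.range (8 * N),
        ((if (if Src b₁ b₂ g then g / 8 else N + 2 * gk g) = N + 2 * k then y g else 0) -
          (if (if Snk b₁ b₂ g then g / 8 else N + (2 * gk g + 1)) = N + 2 * k
            then y g else 0)) =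
      ∑ g ∈ Finset.range (8 * N), if gk g = k ∧ ¬ Src b₁ b₂ g then y g else 0 := by
  refine Finset.sum_congr rfl fun g hg => ?_
  have hg := Finset.mem_range.1 hg
  have h6 : (if Snk b₁ b₂ g then g / 8 else N + (2 * gk g + 1)) ≠ N + 2 * k := by
    split_ifs <;> omega
  rw [if_neg h6, sub_zero]
  refine if_congr ?_ rfl rfl
  by_cases h4 : Src b₁ b₂ g
  · rw [if_pos h4]
    constructor
    · intro h5
      omega
    · intro h5
      exact absurd h4 h5.2
  · rw [if_neg h4]
    constructor
    · intro h5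
      exact ⟨by omega, h4⟩
    · intro h5
      rw [h5.1]

/-- the gadget at a sink -/
private theorem gad_T {y : ℕ → ℝ} {k : ℕ} :
    ∑ g ∈ Finset.range (8 * N),
        ((if (if Src b₁ b₂ g then g / 8 else N + 2 * gk g) = N + (2 * k + 1) then y g else 0) -
          (if (if Snk b₁ b₂ g then g / 8 else N + (2 * gk g + 1)) = N + (2 * k + 1)
            then y g else 0)) =
      - ∑ g ∈ Finset.range (8 * N), if gk g = k ∧ ¬ Snk b₁ b₂ g then y g else 0 := by
  rw [← Finset.sum_neg_distrib]
  refine Finset.sum_congr rfl fun g hg => ?_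
  have hg := Finset.mem_range.1 hg
  have h6 : (if Src b₁ b₂ g then g / 8 else N + 2 * gk g) ≠ N + (2 * k + 1) := by
    split_ifs <;> omega
  rw [if_neg h6, zero_sub]
  congr 1
  refine if_congr ?_ rfl rfl
  by_cases h4 : Snk b₁ b₂ g
  · rw [if_pos h4]
    constructor
    · intro h5
      omega
    · intro h5
      exact absurd h4 h5.2
  · rw [if_neg h4]
    constructor
    · intro h5
      exact ⟨by omega, h4⟩
    · intro h5
      rw [h5.1]

private theorem stD_eq (k : ℕ) : (stD N b₁ b₂ k : ℝ) =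
    ∑ g ∈ Finset.range (8 * N), if gk g = k ∧ ¬ Src b₁ b₂ g then 1 else 0 := by
  unfold stD
  rw [← List.toFinset_card_of_nodup (List.Nodup.filter _ List.nodup_range), List.toFinset_filter,
    List.toFinset_range, Finset.sum_boole]
  congr 2
  refine Finset.filter_congr fun g _ => ?_
  rw [decide_eq_true_iff]

/-- as many arcs enter the sink as leave the source -/
private theorem stD_eq' {k : ℕ} (hk : k < 2)
    (h : ∀ v < N, ∃ z : ℤ, |z| ≤ 2 ∧ bk b₁ b₂ k v = z)
    (hs : ∑ v ∈ Finset.range N, bk b₁ b₂ k v = 0) : (stD N b₁ b₂ k : ℝ) =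
    ∑ g ∈ Finset.range (8 * N), if gk g = k ∧ ¬ Snk b₁ b₂ g then 1 else 0 := by
  rw [stD_eq]
  have h1 : ∑ g ∈ Finset.range (8 * N), ((if Src b₁ b₂ g then gw k g else 0) -
      (if Snk b₁ b₂ g then gw k g else 0)) = 0 := by
    rw [sum_blocks]
    have h2 : ∀ u ∈ Finset.range N, ∑ r ∈ Finset.range 8,
        ((if Src b₁ b₂ (8 * u + r) then gw k (8 * u + r) else 0) -
        (if Snk b₁ b₂ (8 * u + r) then gw k (8 * u + r) else 0)) =
        - ((bk b₁ b₂ k u : ℚ) : ℝ) := by
      intro u hu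
      obtain ⟨z, hz, hz'⟩ := h u (Finset.mem_range.1 hu)
      rw [block_sum hk hz hz', hz', Rat.cast_intCast]
    rw [Finset.sum_congr rfl h2, Finset.sum_neg_distrib, ← Rat.cast_sum, hs, Rat.cast_zero,
      neg_zero]
  rw [← sub_eq_zero, ← Finset.sum_sub_distrib, ← neg_eq_zero, ← Finset.sum_neg_distrib]
  refine (Finset.sum_congr rfl fun g _ => ?_).trans h1
  unfold gw
  by_cases h3 : gk g = k <;> by_cases h4 : Src b₁ b₂ g <;> by_cases h5 : Snk b₁ b₂ g <;>
    simp [h3, h4, h5]

end Gadget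

/-! ### The flows -/

section Flow

variable {N M : ℕ} {tl hd : ℕ → ℕ} {b₁ b₂ : ℕ → ℚ}

private theorem dv_old (htl : ∀ a < M, tl a < N) (hhd : ∀ a < M, hd a < N) (y : ℕ → ℝ) {v : ℕ}
    (hv : N ≤ v) : dv M tl hd y v = 0 := by
  unfold dv
  refine Finset.sum_eq_zero fun a ha => ?_
  have h1 := htl a (Finset.mem_range.1 ha)
  have h2 := hhd a (Finset.mem_range.1 ha)
  rw [if_neg (by omega), if_neg (by omega), sub_zero]

/-- `d` units from `S_k` to `T_k` -/
private noncomputable def sh (N : ℕ) (b₁ b₂ : ℕ → ℚ) (k v : ℕ) : ℝ :=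
  (if v = N + 2 * k then (stD N b₁ b₂ k : ℝ) else 0) -
    (if v = N + (2 * k + 1) then (stD N b₁ b₂ k : ℝ) else 0)

/-- a commodity: the equations of the new digraph -/
private theorem flow_iff (htl : ∀ a < M, tl a < N) (hhd : ∀ a < M, hd a < N) {k : ℕ} (hk : k < 2)
    (h : ∀ v < N, ∃ z : ℤ, |z| ≤ 2 ∧ bk b₁ b₂ k v = z)
    (hs : ∑ v ∈ Finset.range N, bk b₁ b₂ k v = 0) {y : ℕ → ℝ}
    (hy : ∀ g < 8 * N, y (M + g) = gw k g) :
    (∀ v < N + 4, dv (M + 8 * N) (stTl N M tl b₁ b₂) (stHd N M hd b₁ b₂) y v =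
      sh N b₁ b₂ k v) ↔ ∀ v < N, dv M tl hd y v = ((bk b₁ b₂ k v : ℚ) : ℝ) := by
  have e : ∀ v, dv (M + 8 * N) (stTl N M tl b₁ b₂) (stHd N M hd b₁ b₂) y v =
      dv M tl hd y v + ∑ g ∈ Finset.range (8 * N),
        ((if (if Src b₁ b₂ g then g / 8 else N + 2 * gk g) = v then gw k g else 0) -
          (if (if Snk b₁ b₂ g then g / 8 else N + (2 * gk g + 1)) = v then gw k g else 0)) := by
    intro v
    rw [dv_st]
    congr 1
    refine Finset.sum_congr rfl fun g hg => ?_
    rw [hy g (Finset.mem_range.1 hg)]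
  have e1 : ∀ v < N, dv (M + 8 * N) (stTl N M tl b₁ b₂) (stHd N M hd b₁ b₂) y v -
      sh N b₁ b₂ k v = dv M tl hd y v - ((bk b₁ b₂ k v : ℚ) : ℝ) := by
    intro v hv
    obtain ⟨z, hz, hz'⟩ := h v hv
    rw [e, gad_lt hv hk hz hz', hz', Rat.cast_intCast]
    unfold sh
    rw [if_neg (by omega), if_neg (by omega)]
    ring
  constructor
  · intro h1 v hv
    have h2 := e1 v hv
    rw [h1 v (by omega), sub_self] at h2
    exact (sub_eq_zero.1 h2.symm)
  · intro h1 v hv
    by_cases hv' : v < N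
    · have h2 := e1 v hv'
      rw [h1 v hv', sub_self] at h2
      exact sub_eq_zero.1 h2
    · rw [e, dv_old htl hhd y (by omega), zero_add]
      obtain ⟨k', hk', h3⟩ : ∃ k' < 2, v = N + 2 * k' ∨ v = N + (2 * k' + 1) :=
        ⟨(v - N) / 2, by omega, by omega⟩
      rcases h3 with rfl | rfl
      · rw [gad_S]
        unfold sh
        by_cases h4 : k' = k
        · subst h4
          rw [if_pos rfl, if_neg (by omega), sub_zero, stD_eq]
          refine Finset.sum_congr rfl fun g _ => ?_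
          by_cases h5 : gk g = k' ∧ ¬ Src b₁ b₂ g
          · rw [if_pos h5, if_pos h5, gw, if_pos h5.1]
          · rw [if_neg h5, if_neg h5]
        · rw [if_neg (by omega), if_neg (by omega), sub_zero]
          refine Finset.sum_eq_zero fun g _ => ?_
          by_cases h5 : gk g = k' ∧ ¬ Src b₁ b₂ g
          · rw [if_pos h5, gw, if_neg (by rw [h5.1]; exact h4)]
          · rw [if_neg h5]
      · rw [gad_T]
        unfold sh
        by_cases h4 : k' = k
        · subst h4
          rw [if_neg (by omega), if_pos rfl, zero_sub, stD_eq' hk h hs]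
          congr 1
          refine Finset.sum_congr rfl fun g _ => ?_
          by_cases h5 : gk g = k' ∧ ¬ Snk b₁ b₂ g
          · rw [if_pos h5, if_pos h5, gw, if_pos h5.1]
          · rw [if_neg h5, if_neg h5]
        · rw [if_neg (by omega), if_neg (by omega), sub_zero, neg_eq_zero]
          refine Finset.sum_eq_zero fun g _ => ?_
          by_cases h5 : gk g = k' ∧ ¬ Snk b₁ b₂ g
          · rw [if_pos h5, gw, if_neg (by rw [h5.1]; exact h4)]
          · rw [if_neg h5]

/-- a commodity with values at most `1` on the arcs of the gadget has the values `gw` -/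
private theorem flow_one (htl : ∀ a < M, tl a < N) (hhd : ∀ a < M, hd a < N) {k : ℕ} (hk : k < 2)
    (h : ∀ v < N, ∃ z : ℤ, |z| ≤ 2 ∧ bk b₁ b₂ k v = z)
    (hs : ∑ v ∈ Finset.range N, bk b₁ b₂ k v = 0) {y : ℕ → ℝ}
    (hy : ∀ g < 8 * N, y (M + g) ≤ 1)
    (h1 : ∀ v < N + 4, dv (M + 8 * N) (stTl N M tl b₁ b₂) (stHd N M hd b₁ b₂) y v =
      sh N b₁ b₂ k v) {g : ℕ} (hg : g < 8 * N) (hgk : gk g = k) : y (M + g) = 1 := by
  by_cases h2 : Src b₁ b₂ g
  · have h2' : ¬ Snk b₁ b₂ g := fun h4 => by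
      have h5 := h2.1
      have h6 := h4.1
      omega
    have h3 := h1 (N + (2 * k + 1)) (by omega)
    rw [dv_st, dv_old htl hhd y (by omega), zero_add, gad_T (y := fun g => y (M + g))] at h3
    unfold sh at h3
    rw [if_neg (by omega), if_pos rfl, zero_sub, neg_inj, stD_eq' hk h hs] at h3
    have h4 := (Finset.sum_eq_sum_iff_of_le (fun i hi => ?_)).1 h3 g (Finset.mem_range.2 hg)
    · rwa [if_pos ⟨hgk, h2'⟩, if_pos ⟨hgk, h2'⟩] at h4
    · split_ifs
      · exact hy i (Finset.mem_range.1 hi)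
      · exact le_refl _
  · have h3 := h1 (N + 2 * k) (by omega)
    rw [dv_st, dv_old htl hhd y (by omega), zero_add, gad_S (y := fun g => y (M + g))] at h3
    unfold sh at h3
    rw [if_pos rfl, if_neg (by omega), sub_zero, stD_eq] at h3
    have h4 := (Finset.sum_eq_sum_iff_of_le (fun i hi => ?_)).1 h3 g (Finset.mem_range.2 hg)
    · rwa [if_pos ⟨hgk, h2⟩, if_pos ⟨hgk, h2⟩] at h4
    · split_ifs
      · exact hy i (Finset.mem_range.1 hi)
      · exact le_refl _

end Flow

/-! ### The map -/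

/-- the linear part -/
private noncomputable def stL (M M' : ℕ) : (Fin (M + M) → ℝ) →ₗ[ℝ] (Fin (M' + M') → ℝ) where
  toFun x j := if (j : ℕ) < M' then (if (j : ℕ) < M then ex x j else 0)
    else if (j : ℕ) - M' < M then ex x (M + (j - M')) else 0
  map_add' x y := by
    funext j
    simp only [Pi.add_apply, ex]
    split_ifs <;> simp
  map_smul' t x := by
    funext j
    simp only [Pi.smul_apply, ex, RingHom.id_apply, smul_eq_mul]
    split_ifs <;> simp

/-- the translation -/
private noncomputable def sta (M M' : ℕ) (j : Fin (M' + M')) : ℝ := stVal M M' (fun _ => 0) j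

private theorem st_map (M M' : ℕ) (x : Fin (M + M) → ℝ) (j : Fin (M' + M')) :
    (stL M M' x + sta M M') j = stVal M M' (ex x) j := by
  change (if (j : ℕ) < M' then (if (j : ℕ) < M then ex x j else 0)
    else if (j : ℕ) - M' < M then ex x (M + (j - M')) else 0) + stVal M M' (fun _ => 0) j = _
  unfold stVal
  split_ifs <;> simp

private theorem stL_inj {M M' : ℕ} (h : M ≤ M') : Function.Injective (stL M M') := by
  intro x y hxy
  funext j
  by_cases hj : (j : ℕ) < M
  · have h1 := congrFun hxy ⟨j, by omega⟩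
    change (if (j : ℕ) < M' then (if (j : ℕ) < M then ex x j else 0)
      else if (j : ℕ) - M' < M then ex x (M + (j - M')) else 0) =
      (if (j : ℕ) < M' then (if (j : ℕ) < M then ex y j else 0)
      else if (j : ℕ) - M' < M then ex y (M + (j - M')) else 0) at h1
    rw [if_pos (by omega), if_pos hj, if_pos (by omega), if_pos hj, ex_fin, ex_fin] at h1
    exact h1
  · have hj' := j.2
    have h1 := congrFun hxy ⟨M' + (j - M), by omega⟩
    change (if M' + (j - M) < M' then (if M' + ((j : ℕ) - M) < M then ex x (M' + (j - M)) else 0)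
      else if M' + ((j : ℕ) - M) - M' < M then ex x (M + (M' + (j - M) - M')) else 0) =
      (if M' + (j - M) < M' then (if M' + ((j : ℕ) - M) < M then ex y (M' + (j - M)) else 0)
      else if M' + ((j : ℕ) - M) - M' < M then ex y (M + (M' + (j - M) - M')) else 0) at h1
    rw [if_neg (by omega), if_pos (by omega), if_neg (by omega), if_pos (by omega)] at h1
    have e : M + (M' + ((j : ℕ) - M) - M') = j := by omega
    rw [e, ex_fin, ex_fin] at h1
    exact h1

/-- the conditions for the old digraph and for the new one -/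
private theorem cond_iff {N M : ℕ} {tl hd : ℕ → ℕ} {b₁ b₂ : ℕ → ℚ} (htl : ∀ a < M, tl a < N)
    (hhd : ∀ a < M, hd a < N) (h : ∀ k < 2, ∀ v < N, ∃ z : ℤ, |z| ≤ 2 ∧ bk b₁ b₂ k v = z)
    (hs : ∀ k < 2, ∑ v ∈ Finset.range N, bk b₁ b₂ k v = 0) {f F : ℕ → ℝ}
    (h0 : ∀ g < 8 * N, f (M + g) = gw 0 g)
    (h1 : ∀ g < 8 * N, f (M + 8 * N + (M + g)) = gw 1 g) (hF : ∀ a < M, F a = f a)
    (hF' : ∀ a < M, F (M + a) = f (M + 8 * N + a)) :
    ((∀ v < N + 4, dv (M + 8 * N) (stTl N M tl b₁ b₂) (stHd N M hd b₁ b₂) f v =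
        sh N b₁ b₂ 0 v) ∧
      (∀ v < N + 4, dv (M + 8 * N) (stTl N M tl b₁ b₂) (stHd N M hd b₁ b₂)
        (fun a => f (M + 8 * N + a)) v = sh N b₁ b₂ 1 v) ∧
      (∀ a : Fin (M + 8 * N), f a + f (M + 8 * N + a) ≤ 1) ∧
      ∀ j < M + 8 * N + (M + 8 * N), 0 ≤ f j) ↔
    ((∀ v < N, dv M tl hd F v = ((bk b₁ b₂ 0 v : ℚ) : ℝ)) ∧
      (∀ v < N, dv M tl hd (fun a => F (M + a)) v = ((bk b₁ b₂ 1 v : ℚ) : ℝ)) ∧
      (∀ a : Fin M, F a + F (M + a) ≤ 1) ∧ ∀ j < M + M, 0 ≤ F j) := by
  have e0 : ∀ v, dv M tl hd F v = dv M tl hd f v := by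
    intro v
    unfold dv
    refine Finset.sum_congr rfl fun a ha => ?_
    rw [hF a (Finset.mem_range.1 ha)]
  have e1 : ∀ v, dv M tl hd (fun a => F (M + a)) v =
      dv M tl hd (fun a => f (M + 8 * N + a)) v := by
    intro v
    unfold dv
    refine Finset.sum_congr rfl fun a ha => ?_
    dsimp only
    rw [hF' a (Finset.mem_range.1 ha)]
  have g0 : ∀ k g, 0 ≤ gw k g := by
    intro k g
    unfold gw
    split_ifs
    · exact zero_le_one
    · exact le_refl _
  refine and_congr ?_ (and_congr ?_ (and_congr ?_ ?_))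
  · rw [flow_iff htl hhd (by norm_num) (h 0 (by norm_num)) (hs 0 (by norm_num)) h0]
    refine forall_congr' fun v => imp_congr_right fun _ => ?_
    rw [e0]
  · rw [flow_iff htl hhd (by norm_num) (h 1 (by norm_num)) (hs 1 (by norm_num)) h1]
    refine forall_congr' fun v => imp_congr_right fun _ => ?_
    rw [e1]
  · constructor
    · intro h2 a
      rw [hF a a.2, hF' a a.2]
      exact h2 ⟨a, by omega⟩
    · intro h2 a
      by_cases ha : (a : ℕ) < M
      · have h3 := h2 ⟨a, ha⟩
        dsimp only at h3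
        rw [hF a ha, hF' a ha] at h3
        exact h3
      · obtain ⟨g, hg⟩ : ∃ g, (a : ℕ) = M + g := ⟨a - M, by omega⟩
        have ha' := a.2
        rw [hg, h0 g (by omega), h1 g (by omega)]
        unfold gw
        have h4 := gk_lt g
        split_ifs
        · omega
        · norm_num
        · norm_num
        · norm_num
  · constructor
    · intro h2 j hj
      by_cases hj' : j < M
      · rw [hF j hj']
        exact h2 j (by omega)
      · obtain ⟨a, rfl⟩ : ∃ a, j = M + a := ⟨j - M, by omega⟩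
        rw [hF' a (by omega)]
        exact h2 _ (by omega)
    · intro h2 j hj
      by_cases hj1 : j < M + 8 * N
      · by_cases hj2 : j < M
        · rw [← hF j hj2]
          exact h2 j (by omega)
        · obtain ⟨g, rfl⟩ : ∃ g, j = M + g := ⟨j - M, by omega⟩
          rw [h0 g (by omega)]
          exact g0 _ _
      · obtain ⟨a, rfl⟩ : ∃ a, j = M + 8 * N + a := ⟨j - (M + 8 * N), by omega⟩
        by_cases hj2 : a < M
        · rw [← hF' a hj2]
          exact h2 _ (by omega)
        · obtain ⟨g, rfl⟩ : ∃ g, a = M + g := ⟨a - M, by omega⟩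
          rw [h1 g (by omega)]
          exact g0 _ _

/-- **Supplies can be replaced by one source and one sink for each commodity.** -/
theorem exists_isoB {N M : ℕ} {tl hd : ℕ → ℕ} (htl : ∀ a < M, tl a < N) (hhd : ∀ a < M, hd a < N)
    {b₁ b₂ : ℕ → ℚ} (h₁ : ∀ v < N, ∃ z : ℤ, |z| ≤ 2 ∧ b₁ v = z)
    (h₂ : ∀ v < N, ∃ z : ℤ, |z| ≤ 2 ∧ b₂ v = z)
    (s₁ : ∑ v ∈ Finset.range N, b₁ v = 0) (s₂ : ∑ v ∈ Finset.range N, b₂ v = 0)
    (e : Fin M) :
    ∃ E : PIso (twoFlow (fm htl) (fm hhd) (fun v => (b₁ v : ℝ)) (fun v => (b₂ v : ℝ))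
          (fun _ => 1) (Fin.append 0 (fun a => if a = e then 1 else 0)))
        (unitFlow (fm (stTl_lt htl b₁ b₂)) (fm (stHd_lt hhd b₁ b₂))
          (Fin.natAdd N 0) (Fin.natAdd N 1) (Fin.natAdd N 2) (Fin.natAdd N 3)
          (stD N b₁ b₂ 0) (stD N b₁ b₂ 1) (Fin.castAdd (8 * N) e)),
      ∀ (x : Fin (M + M) → ℝ) (j : Fin (M + 8 * N + (M + 8 * N))),
        E.map x j = stVal M (M + 8 * N) (ex x) j := by
  have h : ∀ k < 2, ∀ v < N, ∃ z : ℤ, |z| ≤ 2 ∧ bk b₁ b₂ k v = z := by
    intro k hk v hv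
    have hk' : k = 0 ∨ k = 1 := by omega
    rcases hk' with rfl | rfl
    · exact h₁ v hv
    · exact h₂ v hv
  have hs : ∀ k < 2, ∑ v ∈ Finset.range N, bk b₁ b₂ k v = 0 := by
    intro k hk
    have hk' : k = 0 ∨ k = 1 := by omega
    rcases hk' with rfl | rfl
    · exact s₁
    · exact s₂
  -- the feasible points of the old program
  have mo : ∀ x : Fin (M + M) → ℝ,
      x ∈ (twoFlow (fm htl) (fm hhd) (fun v => (b₁ v : ℝ)) (fun v => (b₂ v : ℝ))
          (fun _ => 1) (Fin.append 0 (fun a => if a = e then 1 else 0))).feasible ↔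
      ((∀ v < N, dv M tl hd (ex x) v = ((bk b₁ b₂ 0 v : ℚ) : ℝ)) ∧
      (∀ v < N, dv M tl hd (fun a => ex x (M + a)) v = ((bk b₁ b₂ 1 v : ℚ) : ℝ)) ∧
      (∀ a : Fin M, ex x a + ex x (M + a) ≤ 1) ∧ ∀ j < M + M, 0 ≤ ex x j) := by
    intro x
    have h3 := mem_twoFlow_nat (tail := fm htl) (head := fm hhd) (tl := tl) (hd := hd)
      (fun _ => rfl) (fun _ => rfl) (b₁ := fun v => ((b₁ v : ℚ) : ℝ))
      (b₂ := fun v => ((b₂ v : ℚ) : ℝ)) (u := fun _ => 1)
      (cost := Fin.append 0 (fun a => if a = e then 1 else 0)) (f := ex x)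
    rw [ex_eta] at h3
    exact h3
  -- the feasible points of the new program
  have mn : ∀ z : Fin (M + 8 * N + (M + 8 * N)) → ℝ,
      z ∈ (unitFlow (fm (stTl_lt htl b₁ b₂)) (fm (stHd_lt hhd b₁ b₂))
          (Fin.natAdd N 0) (Fin.natAdd N 1) (Fin.natAdd N 2) (Fin.natAdd N 3)
          (stD N b₁ b₂ 0) (stD N b₁ b₂ 1) (Fin.castAdd (8 * N) e)).feasible ↔
      ((∀ v < N + 4, dv (M + 8 * N) (stTl N M tl b₁ b₂) (stHd N M hd b₁ b₂) (ex z) v =
        sh N b₁ b₂ 0 v) ∧
      (∀ v < N + 4, dv (M + 8 * N) (stTl N M tl b₁ b₂) (stHd N M hd b₁ b₂)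
        (fun a => ex z (M + 8 * N + a)) v = sh N b₁ b₂ 1 v) ∧
      (∀ a : Fin (M + 8 * N), ex z a + ex z (M + 8 * N + a) ≤ 1) ∧
      ∀ j < M + 8 * N + (M + 8 * N), 0 ≤ ex z j) := by
    intro z
    have h3 := mem_twoFlow_nat (tail := fm (stTl_lt htl b₁ b₂)) (head := fm (stHd_lt hhd b₁ b₂))
      (tl := stTl N M tl b₁ b₂) (hd := stHd N M hd b₁ b₂)
      (fun _ => rfl) (fun _ => rfl) (b₁ := sh N b₁ b₂ 0) (b₂ := sh N b₁ b₂ 1) (u := fun _ => 1)
      (cost := Fin.append 0 (fun a => if a = Fin.castAdd (8 * N) e then 1 else 0)) (f := ex z)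
    rw [ex_eta] at h3
    have e0 : ship (Fin.natAdd N (0 : Fin 4)) (Fin.natAdd N 1) ((stD N b₁ b₂ 0 : ℕ) : ℝ) =
        fun v : Fin (N + 4) => sh N b₁ b₂ 0 v := by
      funext v
      unfold ship sh
      congr 1
      · exact if_congr (by rw [Fin.ext_iff]; exact Iff.rfl) rfl rfl
      · exact if_congr (by rw [Fin.ext_iff]; exact Iff.rfl) rfl rfl
    have e1 : ship (Fin.natAdd N (2 : Fin 4)) (Fin.natAdd N 3) ((stD N b₁ b₂ 1 : ℕ) : ℝ) =
        fun v : Fin (N + 4) => sh N b₁ b₂ 1 v := by
      funext v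
      unfold ship sh
      congr 1
      · exact if_congr (by rw [Fin.ext_iff]; exact Iff.rfl) rfl rfl
      · exact if_congr (by rw [Fin.ext_iff]; exact Iff.rfl) rfl rfl
    unfold unitFlow
    rw [e0, e1]
    exact h3
  have hL : ∀ x : Fin (M + M) → ℝ, stL M (M + 8 * N) x + sta M (M + 8 * N) =
      fun j : Fin (M + 8 * N + (M + 8 * N)) => stVal M (M + 8 * N) (ex x) j := by
    intro x
    funext j
    exact st_map M _ x j
  -- the values of the image
  have v0 : ∀ f : ℕ → ℝ, ∀ g < 8 * N, stVal M (M + 8 * N) f (M + g) = gw 0 g := by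
    intro f g hg
    unfold stVal gw
    rw [if_pos (by omega), if_neg (by omega), Nat.add_sub_cancel_left]
  have v1 : ∀ f : ℕ → ℝ, ∀ g < 8 * N,
      stVal M (M + 8 * N) f (M + 8 * N + (M + g)) = gw 1 g := by
    intro f g hg
    unfold stVal gw
    rw [if_neg (by omega), if_neg (by omega), Nat.add_sub_cancel_left, Nat.add_sub_cancel_left]
  have v2 : ∀ f : ℕ → ℝ, ∀ a < M, stVal M (M + 8 * N) f a = f a := by
    intro f a ha
    unfold stVal
    rw [if_pos (by omega), if_pos ha]
  have v3 : ∀ f : ℕ → ℝ, ∀ a < M, stVal M (M + 8 * N) f (M + 8 * N + a) = f (M + a) := by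
    intro f a ha
    unfold stVal
    rw [if_neg (by omega), Nat.add_sub_cancel_left, if_pos ha]
  have exv : ∀ (f : ℕ → ℝ) {n : ℕ}, ∀ q < n, ex (fun j : Fin n => f j) q = f q := by
    intro f n q hq
    unfold ex
    rw [dif_pos hq]
  refine ⟨{ L := stL M (M + 8 * N), a := sta M (M + 8 * N), inj := stL_inj (by omega),
            feas := ?_, κ := 1, pos := one_pos, β := 0, obj := ?_ }, fun x j => st_map M _ x j⟩
  · ext z
    rw [mn]
    constructor
    · intro hz
      obtain ⟨z1, z2, z3, z4⟩ := hz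
      have w0 : ∀ g < 8 * N, gk g = 0 → ex z (M + g) = 1 := by
        intro g hg hgk
        refine flow_one htl hhd (by norm_num) (h 0 (by norm_num)) (hs 0 (by norm_num))
          (fun g hg => ?_) z1 hg hgk
        have h5 := z3 ⟨M + g, by omega⟩
        have h6 := z4 (M + 8 * N + (M + g)) (by omega)
        dsimp only at h5
        linarith
      have w1 : ∀ g < 8 * N, gk g = 1 → ex z (M + 8 * N + (M + g)) = 1 := by
        intro g hg hgk
        refine flow_one htl hhd (by norm_num) (h 1 (by norm_num)) (hs 1 (by norm_num))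
          (fun g hg => ?_) z2 hg hgk
        have h5 := z3 ⟨M + g, by omega⟩
        have h6 := z4 (M + g) (by omega)
        dsimp only at h5
        linarith
      have w0' : ∀ g < 8 * N, ex z (M + g) = gw 0 g := by
        intro g hg
        unfold gw
        by_cases h4 : gk g = 0
        · rw [if_pos h4, w0 g hg h4]
        · have h5 := z3 ⟨M + g, by omega⟩
          have h6 := z4 (M + g) (by omega)
          have h7 := gk_lt g
          dsimp only at h5
          rw [w1 g hg (by omega)] at h5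
          rw [if_neg h4]
          linarith
      have w1' : ∀ g < 8 * N, ex z (M + 8 * N + (M + g)) = gw 1 g := by
        intro g hg
        unfold gw
        by_cases h4 : gk g = 1
        · rw [if_pos h4, w1 g hg h4]
        · have h5 := z3 ⟨M + g, by omega⟩
          have h6 := z4 (M + 8 * N + (M + g)) (by omega)
          have h7 := gk_lt g
          dsimp only at h5
          rw [w0 g hg (by omega)] at h5
          rw [if_neg h4]
          linarith
      have x0 : ∀ a < M, ex (fun j : Fin (M + M) => if (j : ℕ) < M then ex z j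
          else ex z (M + 8 * N + (j - M))) a = ex z a := by
        intro a ha
        rw [exv (fun j => if j < M then ex z j else ex z (M + 8 * N + (j - M))) a (by omega),
          if_pos ha]
      have x1 : ∀ a < M, ex (fun j : Fin (M + M) => if (j : ℕ) < M then ex z j
          else ex z (M + 8 * N + (j - M))) (M + a) = ex z (M + 8 * N + a) := by
        intro a ha
        rw [exv (fun j => if j < M then ex z j else ex z (M + 8 * N + (j - M))) (M + a)
          (by omega), if_neg (by omega), Nat.add_sub_cancel_left]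
      refine ⟨fun j : Fin (M + M) => if (j : ℕ) < M then ex z j
          else ex z (M + 8 * N + (j - M)), ?_, ?_⟩
      · rw [mo]
        exact (cond_iff htl hhd h hs w0' w1' x0 x1).1 ⟨z1, z2, z3, z4⟩
      · dsimp only
        rw [hL]
        funext j
        rw [← ex_fin z j]
        by_cases hj : (j : ℕ) < M + 8 * N
        · by_cases hj' : (j : ℕ) < M
          · rw [v2 _ _ hj', x0 _ hj']
          · obtain ⟨g, hg⟩ : ∃ g, (j : ℕ) = M + g := ⟨j - M, by omega⟩
            rw [hg, v0 _ g (by omega), w0' g (by omega)]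
        · have hj2 := j.2
          obtain ⟨a, ha⟩ : ∃ a, (j : ℕ) = M + 8 * N + a := ⟨j - (M + 8 * N), by omega⟩
          by_cases hj' : a < M
          · rw [ha, v3 _ _ hj', x1 _ hj']
          · obtain ⟨g, rfl⟩ : ∃ g, a = M + g := ⟨a - M, by omega⟩
            rw [ha, v1 _ g (by omega), w1' g (by omega)]
    · rintro ⟨x, hx, rfl⟩
      rw [mo] at hx
      dsimp only
      rw [hL]
      refine (cond_iff htl hhd h hs (fun g hg => ?_) (fun g hg => ?_) (fun a ha => ?_)
        (fun a ha => ?_)).2 hx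
      · rw [exv (stVal M (M + 8 * N) (ex x)) _ (by omega), v0 _ g hg]
      · rw [exv (stVal M (M + 8 * N) (ex x)) _ (by omega), v1 _ g hg]
      · rw [exv (stVal M (M + 8 * N) (ex x)) _ (by omega), v2 _ a ha]
      · rw [exv (stVal M (M + 8 * N) (ex x)) _ (by omega), v3 _ a ha]
  · intro x
    have o1 : ∀ z : Fin (M + 8 * N + (M + 8 * N)) → ℝ,
        (unitFlow (fm (stTl_lt htl b₁ b₂)) (fm (stHd_lt hhd b₁ b₂))
          (Fin.natAdd N 0) (Fin.natAdd N 1) (Fin.natAdd N 2) (Fin.natAdd N 3)
          (stD N b₁ b₂ 0) (stD N b₁ b₂ 1) (Fin.castAdd (8 * N) e)).obj z =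
        z (Fin.natAdd (M + 8 * N) (Fin.castAdd (8 * N) e)) := by
      intro z
      change ∑ j, Fin.append (0 : Fin (M + 8 * N) → ℝ)
        (fun a => if a = Fin.castAdd (8 * N) e then 1 else 0) j * z j = _
      rw [Fin.sum_univ_add]
      simp only [Fin.append_left, Fin.append_right, Pi.zero_apply, zero_mul,
        Finset.sum_const_zero, zero_add, ite_mul, one_mul, Finset.sum_ite_eq', Finset.mem_univ,
        if_true]
    have o2 : (twoFlow (fm htl) (fm hhd) (fun v => (b₁ v : ℝ)) (fun v => (b₂ v : ℝ))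
          (fun _ => 1) (Fin.append 0 (fun a => if a = e then 1 else 0))).obj x =
        x (Fin.natAdd M e) := by
      change ∑ j, Fin.append (0 : Fin M → ℝ)
        (fun a => if a = e then 1 else 0) j * x j = _
      rw [Fin.sum_univ_add]
      simp only [Fin.append_left, Fin.append_right, Pi.zero_apply, zero_mul,
        Finset.sum_const_zero, zero_add, ite_mul, one_mul, Finset.sum_ite_eq', Finset.mem_univ,
        if_true]
    rw [o1, o2, hL, one_mul, add_zero]
    have e3 : ((Fin.natAdd (M + 8 * N) (Fin.castAdd (8 * N) e) : Fin _) : ℕ) =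
        M + 8 * N + e := rfl
    dsimp only
    rw [e3, v3 _ _ e.2]
    exact ex_fin x (Fin.natAdd M e)

end Pool.Agent.Simplex.Tc
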