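import Pool.Agent.Lib.MP_4d246d_lc.Tc.Iso
import Pool.Agent.Lib.MP_4d246d_lc.Tc.St
import Pool.Agent.Lib.MP_4d246d_lc.EB.OneDef

/-!
# The reduction of transportation programs to two-commodity flow programs
-/

namespace Pool.Agent.Simplex.Tc

open Pool.Agent.Lib.PolyTime Pool.Agent.Simplex.QP Pool.Agent.Simplex.EB Turing

/-! ### The composition of the two isomorphisms -/

/-- the arc that carries the variable `v` in the second commodity -/
def arc0 (v m : ℕ) : ℕ := 6 * (v * m) + 1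

theorem arc0_lt {X : Mat} (hm : 0 < X.2.length) {v : ℕ} (hv : v < X.1) :
    arc0 v X.2.length < wM X := by
  have h1 : (v + 1) * X.2.length ≤ X.1 * X.2.length := Nat.mul_le_mul_right _ hv
  have h2 : (v + 1) * X.2.length = v * X.2.length + X.2.length := by ring
  unfold arc0 wM Tab.slr Tab.slR
  omega

/-- the supplies of the first commodity -/
def uB (X : Mat) (b : List ℚ) (K : ℕ) (v : ℕ) : ℚ := wb X (lineQ X b) K v

/-- the tails of the final digraph -/
def uTl (X : Mat) (b : List ℚ) (a : ℕ) : ℕ := stTl (wN X) (wM X) wtl (uB X b 1) (uB X b 2) a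

/-- the heads -/
def uHd (X : Mat) (b : List ℚ) (a : ℕ) : ℕ := stHd (wN X) (wM X) (whd X) (uB X b 1) (uB X b 2) a

theorem uTl_lt (X : Mat) (b : List ℚ) : ∀ a < wM X + 8 * wN X, uTl X b a < wN X + 4 :=
  stTl_lt (wtl_lt X) _ _

theorem uHd_lt (X : Mat) (b : List ℚ) : ∀ a < wM X + 8 * wN X, uHd X b a < wN X + 4 :=
  stHd_lt (whd_lt X) _ _

/-- the final program -/
def uLP (X : Mat) (b : List ℚ) (a : Fin (wM X)) :
    QLP (wN X + 4 + (wN X + 4) + (wN X + 4 + (wN X + 4)) + (wM X + 8 * wN X))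
      (wM X + 8 * wN X + (wM X + 8 * wN X)) :=
  unitFlowQ (fm (uTl_lt X b)) (fm (uHd_lt X b))
    (Fin.natAdd (wN X) 0) (Fin.natAdd (wN X) 1) (Fin.natAdd (wN X) 2) (Fin.natAdd (wN X) 3)
    (stD (wN X) (uB X b 1) (uB X b 2) 0) (stD (wN X) (uB X b 1) (uB X b 2) 1)
    (Fin.castAdd (8 * wN X) a)

/-- the vertex of the final program -/
def uV (X : Mat) (w : ℕ → ℚ) (j : ℕ) : ℚ :=
  stVal (wM X) (wM X + 8 * wN X) (fun i => Tab.tabQ X w (tpos X i)) j

theorem cast_stVal (M M' : ℕ) (f : ℕ → ℚ) (j : ℕ) :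
    ((stVal M M' f j : ℚ) : ℝ) = stVal M M' (fun i => (f i : ℝ)) j := by
  unfold stVal
  split_ifs <;> simp

theorem stVal_congr {M M' : ℕ} {f g : ℕ → ℝ} (h : ∀ i < M + M, f i = g i) (j : ℕ) :
    stVal M M' f j = stVal M M' g j := by
  unfold stVal
  split_ifs with h1 h2 h3 h4
  · exact h _ (by omega)
  · rfl
  · rfl
  · exact h _ (by omega)
  · rfl
  · rfl

/-- the sum of outflow minus inflow over all nodes -/
theorem sum_dv {N M : ℕ} {tl hd : ℕ → ℕ} (htl : ∀ a < M, tl a < N) (hhd : ∀ a < M, hd a < N)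
    (x : ℕ → ℝ) : ∑ v ∈ Finset.range N, dv M tl hd x v = 0 := by
  unfold dv
  rw [Finset.sum_comm]
  refine Finset.sum_eq_zero fun a ha => ?_
  have ha' := Finset.mem_range.1 ha
  rw [Finset.sum_sub_distrib, Finset.sum_ite_eq, Finset.sum_ite_eq,
    if_pos (Finset.mem_range.2 (htl a ha')), if_pos (Finset.mem_range.2 (hhd a ha')), sub_self]

theorem ofQ_uLP (X : Mat) (b : List ℚ) (a : Fin (wM X)) : ofQ (uLP X b a) =
    unitFlow (fm (stTl_lt (wtl_lt X) (uB X b 1) (uB X b 2)))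
      (fm (stHd_lt (whd_lt X) (uB X b 1) (uB X b 2)))
      (Fin.natAdd (wN X) 0) (Fin.natAdd (wN X) 1) (Fin.natAdd (wN X) 2) (Fin.natAdd (wN X) 3)
      (stD (wN X) (uB X b 1) (uB X b 2) 0) (stD (wN X) (uB X b 1) (uB X b 2) 1)
      (Fin.castAdd (8 * wN X) a) :=
  ofQ_unitFlowQ _ _ _ _ _ _ _ _ _

/-- the levels: the sources, the rows, the columns, the sinks -/
def levN (X : Mat) (v : ℕ) : ℕ :=
  if v < Tab.slr X then 1 else if v < wN X then 2 else if (v - wN X) % 2 = 0 then 0 else 3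

theorem levN_lt (X : Mat) (v : ℕ) : levN X v < 4 := by
  unfold levN
  split_ifs <;> norm_num

theorem uTl_lev (X : Mat) (b : List ℚ) {a : ℕ} (ha : a < wM X + 8 * wN X) :
    levN X (uTl X b a) < levN X (uHd X b a) := by
  have hlow : ∀ v < wN X, levN X v = 1 ∨ levN X v = 2 := by
    intro v hv
    unfold levN
    by_cases h : v < Tab.slr X
    · rw [if_pos h]
      exact Or.inl rfl
    · rw [if_neg h, if_pos hv]
      exact Or.inr rfl
  have hS : ∀ k, levN X (wN X + 2 * k) = 0 := by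
    intro k
    have h1 : ¬ (wN X + 2 * k < Tab.slr X) := by
      unfold wN
      omega
    unfold levN
    rw [if_neg h1, if_neg (by omega), if_pos (by omega)]
  have hT : ∀ k, levN X (wN X + (2 * k + 1)) = 3 := by
    intro k
    have h1 : ¬ (wN X + (2 * k + 1) < Tab.slr X) := by
      unfold wN
      omega
    unfold levN
    rw [if_neg h1, if_neg (by omega), if_neg (by omega)]
  by_cases h1 : a < wM X
  · have h2 := arc_lt h1
    have e1 : uTl X b a = a / 3 := by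
      unfold uTl stTl
      rw [if_pos h1]
      rfl
    have e2 : uHd X b a = Tab.slr X + col X (a / 3) (a % 3) := by
      unfold uHd stHd
      rw [if_pos h1]
      rfl
    have h3 := col_lt h2 (a % 3)
    have h4 : ¬ (Tab.slr X + col X (a / 3) (a % 3) < Tab.slr X) := by omega
    have h5 : Tab.slr X + col X (a / 3) (a % 3) < wN X := by
      unfold wN
      omega
    rw [e1, e2]
    unfold levN
    rw [if_pos h2, if_neg h4, if_pos h5]
    norm_num
  · have hv : (a - wM X) / 8 < wN X := by omega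
    have h2 := hlow _ hv
    unfold uTl uHd stTl stHd
    rw [if_neg h1, if_neg h1]
    by_cases h3 : Src (uB X b 1) (uB X b 2) (a - wM X)
    · have h4 : ¬ Snk (uB X b 1) (uB X b 2) (a - wM X) := fun h4 => by
        have h5 := h3.1
        have h6 := h4.1
        omega
      rw [if_pos h3, if_neg h4, hT]
      omega
    · rw [if_neg h3, hS]
      split_ifs
      · omega
      · rw [hT]
        norm_num

theorem layered_uLP (X : Mat) (b : List ℚ) : Layered (fm (uTl_lt X b)) (fm (uHd_lt X b)) :=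
  ⟨fun v => ⟨levN X v, levN_lt X v⟩, fun a => uTl_lev X b a.2⟩

theorem isUnitFlow_uLP (X : Mat) (b : List ℚ) (a : Fin (wM X))
    (v : Fin (wM X + 8 * wN X + (wM X + 8 * wN X)) → ℚ) (hv : (uLP X b a).Vertex (toReal v)) :
    IsUnitFlow ⟨_, _, uLP X b a, v, hv⟩ :=
  ⟨_, _, _, _, _, _, _, _, _, _, _, v, hv, layered_uLP X b, rfl⟩

/-- the composition of the two isomorphisms -/
theorem exists_comp {m n : ℕ} {D : RLP m n} (X : Mat) (b : List ℚ) {a₀ : ℕ} (hlt : a₀ < wM X)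
    (F : (Fin n → ℝ) → ℕ → ℝ)
    (E₁ : PIso D (twoFlow (fm (wtl_lt X)) (fm (whd_lt X)) (fun v => ((uB X b 1 v : ℚ) : ℝ))
      (fun v => ((uB X b 2 v : ℚ) : ℝ)) (fun _ => 1)
      (Fin.append 0 (fun a => if (a : ℕ) = a₀ then 1 else 0))))
    (hE₁ : ∀ x (j : Fin (wM X + wM X)), E₁.map x j = F x j)
    (h₁ : ∀ v < wN X, ∃ z : ℤ, |z| ≤ 2 ∧ uB X b 1 v = z)
    (h₂ : ∀ v < wN X, ∃ z : ℤ, |z| ≤ 2 ∧ uB X b 2 v = z) {x₀ : Fin n → ℝ}
    (hne : x₀ ∈ D.feasible) :
    ∃ E : PIso D (ofQ (uLP X b ⟨a₀, hlt⟩)), ∀ x (j : Fin (wM X + 8 * wN X +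
      (wM X + 8 * wN X))), E.map x j = stVal (wM X) (wM X + 8 * wN X) (F x) j := by
  have hfe : (fun j : Fin (wM X + wM X) => F x₀ j) ∈ (twoFlow (fm (wtl_lt X)) (fm (whd_lt X))
      (fun v => ((uB X b 1 v : ℚ) : ℝ)) (fun v => ((uB X b 2 v : ℚ) : ℝ)) (fun _ => 1)
      (Fin.append 0 (fun a => if (a : ℕ) = a₀ then 1 else 0))).feasible := by
    have e : (fun j : Fin (wM X + wM X) => F x₀ j) = E₁.map x₀ := by
      funext j
      exact (hE₁ x₀ j).symm
    rw [e, E₁.feas']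
    exact Set.mem_image_of_mem _ hne
  obtain ⟨f1, f2, -, -⟩ := (mem_twoFlow_nat (tl := wtl) (hd := whd X)
    (b₁ := fun v => ((uB X b 1 v : ℚ) : ℝ)) (b₂ := fun v => ((uB X b 2 v : ℚ) : ℝ))
    (fun _ => rfl) (fun _ => rfl)).1 hfe
  have s₁ : ∑ v ∈ Finset.range (wN X), uB X b 1 v = 0 := by
    have h := sum_dv (wtl_lt X) (whd_lt X) (F x₀)
    rw [Finset.sum_congr rfl fun v hv => f1 v (Finset.mem_range.1 hv)] at h
    exact_mod_cast h
  have s₂ : ∑ v ∈ Finset.range (wN X), uB X b 2 v = 0 := by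
    have h := sum_dv (wtl_lt X) (whd_lt X) (fun a => F x₀ (wM X + a))
    rw [Finset.sum_congr rfl fun v hv => f2 v (Finset.mem_range.1 hv)] at h
    exact_mod_cast h
  obtain ⟨E₂, hE₂⟩ := exists_isoB (wtl_lt X) (whd_lt X) h₁ h₂ s₁ s₂ ⟨a₀, hlt⟩
  have hcost : (Fin.append 0 (fun a : Fin (wM X) => if a = ⟨a₀, hlt⟩ then 1 else 0) :
      Fin (wM X + wM X) → ℝ) = Fin.append 0 (fun a => if (a : ℕ) = a₀ then 1 else 0) := by
    congr 1
    funext a
    simp only [Fin.ext_iff]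
  have hE₁' : ∀ (C : Fin (wM X + wM X) → ℝ)
      (_ : C = Fin.append 0 (fun a => if (a : ℕ) = a₀ then 1 else 0)),
      ∃ E : PIso D (twoFlow (fm (wtl_lt X)) (fm (whd_lt X)) (fun v => ((uB X b 1 v : ℚ) : ℝ))
        (fun v => ((uB X b 2 v : ℚ) : ℝ)) (fun _ => 1) C),
        ∀ x (j : Fin (wM X + wM X)), E.map x j = F x j := by
    rintro C rfl
    exact ⟨E₁, hE₁⟩
  obtain ⟨E₁', hE₁'⟩ := hE₁' _ hcost
  refine ⟨PIso.cast (ofQ_uLP X b ⟨a₀, hlt⟩).symm (E₁'.trans E₂), fun x j => ?_⟩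
  rw [PIso.cast_map, PIso.trans_map, hE₂]
  refine stVal_congr (fun i hi => ?_) j
  unfold ex
  rw [dif_pos hi, hE₁']

/-- **The program is isomorphic to a two-commodity flow program of the final form.** -/
theorem exists_isoU {I : Input} (h : Tab.OkT I) {v₀ : ℕ} (hv : v₀ < I.n)
    (hc : ∀ j : Fin I.n, I.lp.c j = if (j : ℕ) = v₀ then 1 else 0)
    (hlt : arc0 v₀ (ofQ I.lp).mat.2.length < wM (ofQ I.lp).mat) :
    ∃ E : PIso (ofQ I.lp) (ofQ (uLP (ofQ I.lp).mat (List.ofFn I.lp.b) ⟨_, hlt⟩)),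
      ∀ (x : Fin I.n → ℝ) (j : Fin (wM (ofQ I.lp).mat + 8 * wN (ofQ I.lp).mat +
          (wM (ofQ I.lp).mat + 8 * wN (ofQ I.lp).mat))),
        E.map x j = stVal (wM (ofQ I.lp).mat) (wM (ofQ I.lp).mat + 8 * wN (ofQ I.lp).mat)
          (fun i => Tab.tab (ofQ I.lp).mat 1 (Tab.vfun x) (tpos (ofQ I.lp).mat i)) j := by
  obtain ⟨E₁, hE₁⟩ := exists_isoA h ⟨v₀, hv⟩ fun j => by
    rw [hc]
    simp only [Fin.ext_iff]
  exact exists_comp (ofQ I.lp).mat (List.ofFn I.lp.b) hlt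
    (fun x i => Tab.tab (ofQ I.lp).mat 1 (Tab.vfun x) (tpos (ofQ I.lp).mat i)) E₁ hE₁
    (wb_int h (by norm_num)) (wb_int h (by norm_num)) (x₀ := toReal I.v)
    ((ofQ_vertex I.lp (toReal I.v)).2 I.vertex).1

/-! ### The input -/

/-- the conditions; the objective is the variable `v₀` -/
structure OkV (J : Input) (v₀ : ℕ) : Prop where
  ok : Tab.OkT J
  lt : v₀ < J.n
  cost : ∀ j : Fin J.n, J.lp.c j = if (j : ℕ) = v₀ then 1 else 0

section

variable {J : Input} {v₀ : ℕ}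

theorem OkV.pos (h : OkV J v₀) : 0 < (ofQ J.lp).mat.2.length := by
  rw [slim_length]
  exact h.ok.pos

theorem OkV.arc (h : OkV J v₀) {v : ℕ} (hv : v < J.n) :
    arc0 v (ofQ J.lp).mat.2.length < wM (ofQ J.lp).mat := arc0_lt h.pos hv

/-- the isomorphism -/
noncomputable def isoU (h : OkV J v₀) : PIso (ofQ J.lp)
    (ofQ (uLP (ofQ J.lp).mat (List.ofFn J.lp.b) ⟨_, h.arc h.lt⟩)) :=
  (exists_isoU h.ok h.lt h.cost (h.arc h.lt)).choose

theorem isoU_map (h : OkV J v₀) (x : Fin J.n → ℝ)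
    (j : Fin (wM (ofQ J.lp).mat + 8 * wN (ofQ J.lp).mat +
      (wM (ofQ J.lp).mat + 8 * wN (ofQ J.lp).mat))) :
    (isoU h).map x j = stVal (wM (ofQ J.lp).mat) (wM (ofQ J.lp).mat + 8 * wN (ofQ J.lp).mat)
      (fun i => Tab.tab (ofQ J.lp).mat 1 (Tab.vfun x) (tpos (ofQ J.lp).mat i)) j :=
  (exists_isoU h.ok h.lt h.cost (h.arc h.lt)).choose_spec x j

/-- the vertex as a function on the natural numbers -/
def spV (J : Input) (k : ℕ) : ℚ := if h : k < J.n then J.v ⟨k, h⟩ else 0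

theorem isoU_v (h : OkV J v₀) : (isoU h).map (toReal J.v) =
    toReal (fun j : Fin (wM (ofQ J.lp).mat + 8 * wN (ofQ J.lp).mat +
      (wM (ofQ J.lp).mat + 8 * wN (ofQ J.lp).mat)) => uV (ofQ J.lp).mat (spV J) j) := by
  funext j
  rw [isoU_map]
  show _ = ((uV (ofQ J.lp).mat (spV J) j : ℚ) : ℝ)
  unfold uV
  rw [cast_stVal]
  congr 1
  funext i
  rw [Tab.cast_tabQ]
  congr 1
  funext k
  unfold Tab.vfun spV toReal
  split_ifs
  · rfl
  · exact Rat.cast_zero.symm

/-- the two-commodity flow input -/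
def redG (h : OkV J v₀) : Input :=
  ⟨_, _, uLP (ofQ J.lp).mat (List.ofFn J.lp.b) ⟨_, h.arc h.lt⟩,
    fun j => uV (ofQ J.lp).mat (spV J) j, by
    rw [← isoU_v h, ← ofQ_vertex]
    exact (isoU h).vertex.2 ((ofQ_vertex _ _).2 J.vertex)⟩

theorem redG_unit (h : OkV J v₀) : IsUnitFlow (redG h) := isUnitFlow_uLP _ _ _ _ _

/-! ### The way back -/

/-- the place of the variable `v` -/
def upos (X : Mat) (v : ℕ) : ℕ := wM X + 8 * wN X + arc0 v X.2.length

/-- the way back to the sparse program -/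
def backV (h : OkV J v₀) (w : Fin (redG h).n → ℚ) (j : Fin J.n) : ℚ :=
  if h' : upos (ofQ J.lp).mat j < (redG h).n then w ⟨upos (ofQ J.lp).mat j, h'⟩ else 0

theorem stVal_upos {X : Mat} (hm : 0 < X.2.length) (f : ℕ → ℝ) {v : ℕ} (hv : v < X.1) :
    stVal (wM X) (wM X + 8 * wN X) f (upos X v) = f (wM X + arc0 v X.2.length) := by
  have h1 := arc0_lt hm hv
  unfold stVal upos
  rw [if_neg (by omega), Nat.add_sub_cancel_left, if_pos h1]

theorem upos_lt {X : Mat} (hm : 0 < X.2.length) {v : ℕ} (hv : v < X.1) :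
    upos X v < wM X + 8 * wN X + (wM X + 8 * wN X) := by
  have h1 := arc0_lt hm hv
  unfold upos
  omega

theorem tpos_arc0 {X : Mat} (v : ℕ) : tpos X (wM X + arc0 v X.2.length) = Tab.slp0 X v := by
  unfold tpos
  rw [if_neg (by omega), Nat.add_sub_cancel_left]
  unfold wpos Tab.slp0 arc0 col
  have h1 : (6 * (v * X.2.length) + 1) / 3 = 2 * (v * X.2.length) := by omega
  have h2 : (6 * (v * X.2.length) + 1) % 3 = 1 := by omega
  have h3 : 2 * (v * X.2.length) / 2 = v * X.2.length := by omega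
  rw [h1, h2, if_neg one_ne_zero, if_pos rfl, h3]

theorem backV_map (h : OkV J v₀) (x : Fin J.n → ℝ)
    (w : Fin (redG h).n → ℚ) (hw : toReal w = (isoU h).map x) : toReal (backV h w) = x := by
  funext j
  have hlt : upos (ofQ J.lp).mat j < (redG h).n :=
    upos_lt h.pos (show (j : ℕ) < (ofQ J.lp).mat.1 from j.2)
  have h1 := (congrFun hw ⟨upos (ofQ J.lp).mat j, hlt⟩).trans
    (isoU_map h x ⟨upos (ofQ J.lp).mat j, hlt⟩)
  dsimp only at h1
  rw [stVal_upos h.pos _ (show (j : ℕ) < (ofQ J.lp).mat.1 from j.2), tpos_arc0] at h1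
  have h2 : Tab.tab (ofQ J.lp).mat 1 (Tab.vfun x) (Tab.slp0 (ofQ J.lp).mat j) =
      Tab.vfun x j := Tab.tab_slp0 (D := ofQ J.lp) h.ok.pos 1 (Tab.vfun x) j.2
  rw [h2, Tab.vfun_fin] at h1
  have h3 : toReal (backV h w) j = toReal w ⟨upos (ofQ J.lp).mat j, hlt⟩ := by
    show ((backV h w j : ℚ) : ℝ) = _
    unfold backV
    rw [dif_pos hlt]
    rfl
  rw [h3]
  exact h1

/-- runs are carried back to the sparse program -/
theorem run_of_redG {h : OkV J v₀} {N : ℕ} {x : ℕ → Fin (redG h).n → ℚ}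
    {s : Verdict} (hr : SimplexRun (redG h) N x s) :
    SimplexRun J N (fun t => backV h (x t)) s :=
  run_of_piso (I := J) (I' := redG h) (isoU h) (isoU_v h).symm (backV_map h) hr

end

/-! ### Transportation programs -/

/-- the sparse program of `EB/OneDef.lean` -/
abbrev spI (I : {I : Input // IsTransport I}) : Input := redI (Tab.redH I)

theorem okV_red (I : {I : Input // IsTransport I}) : OkV (spI I) (I.1.n + 1) where
  ok := Tab.okT_red I
  lt := by
    show I.1.n + 1 < I.1.n + 2 + _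
    omega
  cost j := Tab.hom_obj (kOf I.1) I.1.lp j

/-- the two-commodity flow input -/
def redU (I : {I : Input // IsTransport I}) : Input := redG (okV_red I)

theorem redU_unit (I : {I : Input // IsTransport I}) : IsUnitFlow (redU I) := redG_unit _

/-- the way back from the sparse program -/
def backSp (I : {I : Input // IsTransport I}) (w : Fin (spI I).n → ℚ) (j : Fin I.1.n) : ℚ :=
  2 ^ (kOf I.1 + 1) * w ⟨j, Tab.lt_dim I j⟩

/-- the way back -/
def backU (I : {I : Input // IsTransport I}) (w : Fin (redU I).n → ℚ) : Fin I.1.n → ℚ :=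
  backSp I (backV (okV_red I) w)

/-- the isomorphism with the sparse program -/
noncomputable def isoSp (I : {I : Input // IsTransport I}) :
    PIso (ofQ I.1.lp) (ofQ (spI I).lp) := (Tab.isoH I).trans (isoI (Tab.redH I))

theorem isoSp_map (I : {I : Input // IsTransport I}) (x : Fin I.1.n → ℝ) :
    (isoSp I).map x = (isoI (Tab.redH I)).map ((Tab.isoH I).map x) := by
  unfold isoSp
  rw [PIso.trans_map]

theorem isoSp_v (I : {I : Input // IsTransport I}) :
    toReal (spI I).v = (isoSp I).map (toReal I.1.v) := by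
  rw [isoSp_map, Tab.isoH_v, isoI_v]

theorem backSp_map (I : {I : Input // IsTransport I}) (x : Fin I.1.n → ℝ)
    (w : Fin (spI I).n → ℚ) (hw : toReal w = (isoSp I).map x) : toReal (backSp I w) = x := by
  rw [isoSp_map, isoI_map] at hw
  funext j
  have h2 := congrFun hw ⟨j, Tab.lt_dim I j⟩
  have h3 : (spIso (ofQ (Tab.redH I).lp)).φ ((Tab.isoH I).map x) ⟨j, Tab.lt_dim I j⟩ =
      x j / 2 ^ (kOf I.1 + 1) := by
    have hj : (j : ℕ) < (Tab.redH I).n := by
      show (j : ℕ) < I.1.n + 2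
      omega
    have h4 := spIso_castLE (ofQ (Tab.redH I).lp) ((Tab.isoH I).map x) ⟨j, hj⟩
    exact h4.trans (Tab.isoH_lt I x j hj)
  have h5 : toReal (backSp I w) j = 2 ^ (kOf I.1 + 1) * toReal w ⟨j, Tab.lt_dim I j⟩ := by
    show ((2 ^ (kOf I.1 + 1) * w ⟨j, Tab.lt_dim I j⟩ : ℚ) : ℝ) = _
    push_cast
    rfl
  have h7 := h2.trans h3
  rw [h5, h7]
  have h6 : (2 : ℝ) ^ (kOf I.1 + 1) ≠ 0 := by positivity
  field_simp

/-- runs are carried back -/
theorem run_of_redU {I : {I : Input // IsTransport I}} {N : ℕ} {x : ℕ → Fin (redU I).n → ℚ}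
    {s : Verdict} (h : SimplexRun (redU I) N x s) :
    SimplexRun I.1 N (fun t => backU I (x t)) s := by
  have h1 : SimplexRun (spI I) N (fun t => backV (okV_red I) (x t)) s := run_of_redG h
  exact run_of_piso (I' := spI I) (isoSp I) (isoSp_v I) (backSp_map I) h1

end Pool.Agent.Simplex.Tc
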