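import Pool.Agent.Lib.MP_4d246d_lc.Tc.Arcs
import Pool.Agent.Lib.MP_4d246d_lc.Tc.Basic

/-!
# Tables and two-commodity flows
-/

open Finset

namespace Pool.Agent.Simplex.Tc

open Pool.Agent.Lib.PolyTime Pool.Agent.Simplex.QP Pool.Agent.Simplex.EB Turing

variable {X : Mat}

theorem col_zero (X : Mat) (e : ℕ) : col X e 0 = Tab.hgt X e := by
  unfold col
  rw [if_pos rfl]

theorem col_one (X : Mat) (e : ℕ) : col X e 1 = 2 * X.2.length + Tab.slR X + e / 2 := by
  unfold col
  rw [if_neg one_ne_zero, if_pos rfl]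

theorem col_two (X : Mat) (e : ℕ) :
    col X e 2 = 2 * X.2.length + Tab.slR X + (Tab.slR X + Tab.colc X e) := by
  unfold col
  rw [if_neg (by norm_num), if_neg (by norm_num)]

/-- the three columns are distinct -/
theorem col_inj {e : ℕ} (he : e < Tab.slr X) {t t' : ℕ} (ht : t < 3) (ht' : t' < 3)
    (h : col X e t = col X e t') : t = t' := by
  have hm := len_pos he
  have h1 := Tab.TabInv.hgt_lt' hm he
  have h2 := Tab.TabInv.half_lt he
  have h3 := Tab.TabInv.colc_lt hm he
  interval_cases t <;> interval_cases t' <;> simp only [col_zero, col_one, col_two] at h <;>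
    first
      | rfl
      | omega

theorem wpos_mk (X : Mat) {e t : ℕ} (ht : t < 3) (K : ℕ) :
    wpos X (3 * e + t) K = ix (Tab.slc X) e (col X e t) K := by
  have h1 : (3 * e + t) / 3 = e := by omega
  have h2 : (3 * e + t) % 3 = t := by omega
  unfold wpos
  rw [h1, h2]

theorem wpos_lt {a : ℕ} (ha : a < wM X) {K : ℕ} (hK : K < 3) :
    wpos X a K < 3 * (Tab.slr X * Tab.slc X) :=
  ix_lt (arc_lt ha) (col_lt (arc_lt ha) _) hK

theorem tpos_lt {j : ℕ} (hj : j < wM X + wM X) : tpos X j < 3 * (Tab.slr X * Tab.slc X) := by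
  unfold tpos
  split_ifs with h
  · exact wpos_lt h (by norm_num)
  · exact wpos_lt (by omega) (by norm_num)

/-- the table is zero outside the three columns of each row -/
def Sup (X : Mat) (f : ℕ → ℝ) : Prop :=
  ∀ e < Tab.slr X, ∀ J < Tab.slc X, (∀ t < 3, J ≠ col X e t) → ∀ K < 3,
    f (ix (Tab.slc X) e J K) = 0

/-- the arcs of a cell -/
theorem sum_arcs (r : ℕ) (g : ℕ → ℝ) : ∑ a ∈ range (3 * r), g a =
    ∑ e ∈ range r, ∑ t ∈ range 3, g (3 * e + t) := by
  induction r with
  | zero => simp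
  | succ r ih =>
    rw [show 3 * (r + 1) = 3 * r + 1 + 1 + 1 by ring, sum_range_succ, sum_range_succ,
      sum_range_succ, ih, sum_range_succ _ r]
    simp only [sum_range_succ, sum_range_zero, add_zero, zero_add]
    ring

/-- the sum over a row of a function that is zero outside the three columns -/
theorem sum_cols {e : ℕ} (he : e < Tab.slr X) {g : ℕ → ℝ}
    (hg : ∀ J < Tab.slc X, (∀ t < 3, J ≠ col X e t) → g J = 0) :
    ∑ J ∈ range (Tab.slc X), g J = ∑ t ∈ range 3, g (col X e t) := by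
  have hinj : Set.InjOn (col X e) (range 3 : Finset ℕ) := by
    intro t ht t' ht' h
    exact col_inj he (mem_range.1 (mem_coe.1 ht)) (mem_range.1 (mem_coe.1 ht')) h
  rw [← sum_image (g := col X e) (f := g) hinj]
  refine (sum_subset ?_ fun J hJ hn => ?_).symm
  · intro J hJ
    obtain ⟨t, -, rfl⟩ := mem_image.1 hJ
    exact mem_range.2 (col_lt he t)
  · refine hg J (mem_range.1 hJ) fun t ht h => hn ?_
    exact mem_image.2 ⟨t, mem_range.2 ht, h.symm⟩

theorem line_C {f : ℕ → ℝ} (hf : Sup X f) {e K : ℕ} (he : e < Tab.slr X) (hK : K < 3) :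
    lsum (Tab.slr X) (Tab.slc X) (Tab.slr X * Tab.slc X + 3 * Tab.slc X + (3 * e + K)) f =
      ∑ t ∈ range 3, f (wpos X (3 * e + t) K) := by
  rw [lsum_C he hK, sum_cols he fun J hJ h => hf e he J hJ h K hK]
  refine sum_congr rfl fun t ht => ?_
  rw [wpos_mk X (mem_range.1 ht)]

theorem line_B {f : ℕ → ℝ} (hf : Sup X f) {J K : ℕ} (hJ : J < Tab.slc X) (hK : K < 3) :
    lsum (Tab.slr X) (Tab.slc X) (Tab.slr X * Tab.slc X + (3 * J + K)) f =
      ∑ e ∈ range (Tab.slr X), ∑ t ∈ range 3,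
        if col X e t = J then f (wpos X (3 * e + t) K) else 0 := by
  rw [lsum_B hJ hK]
  refine sum_congr rfl fun e he => ?_
  have he' := mem_range.1 he
  by_cases h : ∃ t < 3, J = col X e t
  · obtain ⟨t, ht, rfl⟩ := h
    rw [sum_eq_single t]
    · rw [if_pos rfl, wpos_mk X ht]
    · intro t' ht' hne
      rw [if_neg fun h => hne (col_inj he' (mem_range.1 ht') ht h)]
    · intro h
      exact absurd (mem_range.2 ht) h
  · rw [hf e he' J hJ (fun t ht h' => h ⟨t, ht, h'⟩) K hK]
    symm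
    refine sum_eq_zero fun t ht => ?_
    rw [if_neg fun h' => h ⟨t, mem_range.1 ht, h'.symm⟩]

/-- outflow at a row -/
theorem dv_row {g : ℕ → ℝ} {e : ℕ} (he : e < Tab.slr X) :
    dv (wM X) wtl (whd X) g e = ∑ t ∈ range 3, g (3 * e + t) := by
  unfold dv wM
  rw [sum_arcs, sum_eq_single e]
  · refine sum_congr rfl fun t ht => ?_
    have ht' := mem_range.1 ht
    have h1 : wtl (3 * e + t) = e := by
      unfold wtl
      omega
    have h2 : whd X (3 * e + t) ≠ e := by
      unfold whd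
      omega
    rw [if_pos h1, if_neg h2, sub_zero]
  · intro e' he' hne
    refine sum_eq_zero fun t ht => ?_
    have ht' := mem_range.1 ht
    have h1 : wtl (3 * e' + t) ≠ e := by
      unfold wtl
      omega
    have h2 : whd X (3 * e' + t) ≠ e := by
      unfold whd
      omega
    rw [if_neg h1, if_neg h2, sub_zero]
  · intro h
    exact absurd (mem_range.2 he) h

/-- inflow at a column -/
theorem dv_col {g : ℕ → ℝ} (J : ℕ) :
    dv (wM X) wtl (whd X) g (Tab.slr X + J) = - ∑ e ∈ range (Tab.slr X), ∑ t ∈ range 3,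
      if col X e t = J then g (3 * e + t) else 0 := by
  unfold dv wM
  rw [sum_arcs, ← sum_neg_distrib]
  refine sum_congr rfl fun e he => ?_
  rw [← sum_neg_distrib]
  refine sum_congr rfl fun t ht => ?_
  have he' := mem_range.1 he
  have ht' := mem_range.1 ht
  have h1 : wtl (3 * e + t) ≠ Tab.slr X + J := by
    unfold wtl
    omega
  have h2 : whd X (3 * e + t) = Tab.slr X + J ↔ col X e t = J := by
    unfold whd
    have h3 : (3 * e + t) / 3 = e := by omega
    have h4 : (3 * e + t) % 3 = t := by omega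
    rw [h3, h4]
    omega
  rw [if_neg h1, zero_sub]
  by_cases h : col X e t = J
  · rw [if_pos h, if_pos (h2.2 h)]
  · rw [if_neg h, if_neg fun h' => h (h2.1 h')]

/-- **The conservation equations are the line sums.** -/
theorem dv_iff {f : ℕ → ℝ} (hf : Sup X f) (S : ℕ → ℝ) {K : ℕ} (hK : K < 3) :
    (∀ v < wN X, dv (wM X) wtl (whd X) (fun a => f (wpos X a K)) v = wb X S K v) ↔
      (∀ e < Tab.slr X, lsum (Tab.slr X) (Tab.slc X)
        (Tab.slr X * Tab.slc X + 3 * Tab.slc X + (3 * e + K)) f =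
          S (Tab.slr X * Tab.slc X + 3 * Tab.slc X + (3 * e + K))) ∧
      ∀ J < Tab.slc X, lsum (Tab.slr X) (Tab.slc X) (Tab.slr X * Tab.slc X + (3 * J + K)) f =
        S (Tab.slr X * Tab.slc X + (3 * J + K)) := by
  have hrow : ∀ e < Tab.slr X, wb X S K e =
      S (Tab.slr X * Tab.slc X + 3 * Tab.slc X + (3 * e + K)) := by
    intro e he
    unfold wb
    rw [if_pos he]
  have hcol : ∀ J, wb X S K (Tab.slr X + J) = - S (Tab.slr X * Tab.slc X + (3 * J + K)) := by
    intro J
    unfold wb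
    rw [if_neg (by omega), Nat.add_sub_cancel_left]
  constructor
  · intro h
    refine ⟨fun e he => ?_, fun J hJ => ?_⟩
    · rw [line_C hf he hK, ← hrow e he, ← h e (by unfold wN; omega), dv_row he]
    · have h1 := h (Tab.slr X + J) (by unfold wN; omega)
      rw [hcol, dv_col, neg_inj] at h1
      rw [line_B hf hJ hK, h1]
  · rintro ⟨h1, h2⟩ v hv
    by_cases h3 : v < Tab.slr X
    · rw [hrow v h3, ← h1 v h3, line_C hf h3 hK, dv_row h3]
    · obtain ⟨J, rfl⟩ : ∃ J, v = Tab.slr X + J := ⟨v - Tab.slr X, by omega⟩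
      have hJ : J < Tab.slc X := by
        unfold wN at hv
        omega
      rw [hcol, dv_col, ← h2 J hJ, line_B hf hJ hK]

/-- the values in the three layers at an arc -/
noncomputable def cellv (X : Mat) (g : ℕ → ℝ) (a K : ℕ) : ℝ :=
  if K = 0 then 1 - g a - g (wM X + a) else if K = 1 then g a else g (wM X + a)

/-- the table of a pair of flows -/
noncomputable def went (X : Mat) (g : ℕ → ℝ) (q : ℕ) : ℝ :=
  ∑ t ∈ range 3, if q / 3 % Tab.slc X = col X (q / 3 / Tab.slc X) t
    then cellv X g (3 * (q / 3 / Tab.slc X) + t) (q % 3) else 0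

theorem went_ix (g : ℕ → ℝ) {e J K : ℕ} (hJ : J < Tab.slc X) (hK : K < 3) :
    went X g (ix (Tab.slc X) e J K) =
      ∑ t ∈ range 3, if J = col X e t then cellv X g (3 * e + t) K else 0 := by
  obtain ⟨h1, h2, h3⟩ := ix_div (e := e) hJ hK
  unfold went
  rw [h1, h2, h3]

theorem went_wpos (g : ℕ → ℝ) {a K : ℕ} (ha : a < wM X) (hK : K < 3) :
    went X g (wpos X a K) = cellv X g a K := by
  have he := arc_lt ha
  unfold wpos
  rw [went_ix g (col_lt he _) hK, sum_eq_single (a % 3)]
  · rw [if_pos rfl, Nat.div_add_mod]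
  · intro t ht hne
    rw [if_neg fun h => hne (col_inj he (Nat.mod_lt _ (by norm_num)) (mem_range.1 ht) h).symm]
  · intro h
    exact absurd (mem_range.2 (Nat.mod_lt _ (by norm_num))) h

theorem went_sup (g : ℕ → ℝ) : Sup X (went X g) := by
  intro e he J hJ h K hK
  rw [went_ix g hJ hK]
  refine sum_eq_zero fun t ht => ?_
  rw [if_neg (h t (mem_range.1 ht))]

/-- the lines `(e, J, ·)` -/
theorem went_A (g : ℕ → ℝ) {e J : ℕ} (he : e < Tab.slr X) (hJ : J < Tab.slc X) :
    lsum (Tab.slr X) (Tab.slc X) (e * Tab.slc X + J) (went X g) =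
      ∑ t ∈ range 3, if J = col X e t then 1 else 0 := by
  rw [lsum_A he hJ]
  simp only [sum_range_succ, sum_range_zero, zero_add]
  rw [went_ix g hJ (by norm_num), went_ix g hJ (by norm_num), went_ix g hJ (by norm_num)]
  simp only [sum_range_succ, sum_range_zero, zero_add, cellv, if_true, if_neg one_ne_zero,
    OfNat.ofNat_ne_zero, OfNat.ofNat_ne_one, if_false]
  split_ifs <;> ring

/-- the lines `(e, J, ·)` of the table of `X` -/
theorem tab_A (w : ℕ → ℝ) {e J : ℕ} (he : e < Tab.slr X) (hJ : J < Tab.slc X) :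
    lsum (Tab.slr X) (Tab.slc X) (e * Tab.slc X + J) (Tab.tab X 1 w) =
      ∑ t ∈ range 3, if J = col X e t then 1 else 0 := by
  have hm := len_pos he
  have hh := Tab.TabInv.hgt_lt' hm he
  have hhalf := Tab.TabInv.half_lt he
  rw [lsum_A he hJ]
  simp only [sum_range_succ, sum_range_zero, zero_add, col_zero, col_one, col_two]
  rw [Tab.TabInv.tab_ix 1 w hJ (by norm_num), Tab.TabInv.tab_ix 1 w hJ (by norm_num),
    Tab.TabInv.tab_ix 1 w hJ (by norm_num)]
  by_cases h0 : J = Tab.hgt X e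
  · have h1 : J ≠ 2 * X.2.length + Tab.slR X + e / 2 := by omega
    have h2 : J ≠ 2 * X.2.length + Tab.slR X + (Tab.slR X + Tab.colc X e) := by omega
    rw [if_pos h0, if_neg h1, if_neg h2, h0]
    simp only [Tab.TabInv.kind_hgt]
    norm_num
  by_cases h1 : J = 2 * X.2.length + Tab.slR X + e / 2
  · have h2 : J ≠ 2 * X.2.length + Tab.slR X + (Tab.slR X + Tab.colc X e) := by omega
    rw [if_neg h0, if_pos h1, if_neg h2, h1]
    simp only [Tab.TabInv.kind_mid hm he]
    norm_num
  by_cases h2 : J = 2 * X.2.length + Tab.slR X + (Tab.slR X + Tab.colc X e)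
  · rw [if_neg h0, if_neg h1, if_pos h2, h2]
    simp only [Tab.TabInv.kind_col hm he]
    norm_num
  · rw [if_neg h0, if_neg h1, if_neg h2]
    simp only [Tab.TabInv.kind_else h0 h1 h2]
    norm_num

theorem tab_sup (w : ℕ → ℝ) : Sup X (Tab.tab X 1 w) := by
  intro e he J hJ h K hK
  refine Tab.TabInv.tab_zero 1 w hJ hK (Tab.TabInv.kind_else ?_ ?_ ?_ K)
  · rw [← col_zero]
    exact h 0 (by norm_num)
  · rw [← col_one]
    exact h 1 (by norm_num)
  · rw [← col_two]
    exact h 2 (by norm_num)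

/-- the three lines `(e, ·, K)` and the lines `(e, J, ·)` -/
theorem sum_CA (f : ℕ → ℝ) {e : ℕ} (he : e < Tab.slr X) :
    ∑ K ∈ range 3, lsum (Tab.slr X) (Tab.slc X)
      (Tab.slr X * Tab.slc X + 3 * Tab.slc X + (3 * e + K)) f =
    ∑ J ∈ range (Tab.slc X), lsum (Tab.slr X) (Tab.slc X) (e * Tab.slc X + J) f := by
  have h1 : ∀ K ∈ range 3, lsum (Tab.slr X) (Tab.slc X)
      (Tab.slr X * Tab.slc X + 3 * Tab.slc X + (3 * e + K)) f =
      ∑ J ∈ range (Tab.slc X), f (ix (Tab.slc X) e J K) := fun K hK =>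
    lsum_C he (mem_range.1 hK) f
  have h2 : ∀ J ∈ range (Tab.slc X), lsum (Tab.slr X) (Tab.slc X) (e * Tab.slc X + J) f =
      ∑ K ∈ range 3, f (ix (Tab.slc X) e J K) := fun J hJ => lsum_A he (mem_range.1 hJ) f
  rw [sum_congr rfl h1, sum_congr rfl h2, sum_comm]

/-- the three lines `(·, J, K)` and the lines `(e, J, ·)` -/
theorem sum_BA (f : ℕ → ℝ) {J : ℕ} (hJ : J < Tab.slc X) :
    ∑ K ∈ range 3, lsum (Tab.slr X) (Tab.slc X) (Tab.slr X * Tab.slc X + (3 * J + K)) f =
    ∑ e ∈ range (Tab.slr X), lsum (Tab.slr X) (Tab.slc X) (e * Tab.slc X + J) f := by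
  have h1 : ∀ K ∈ range 3, lsum (Tab.slr X) (Tab.slc X)
      (Tab.slr X * Tab.slc X + (3 * J + K)) f =
      ∑ e ∈ range (Tab.slr X), f (ix (Tab.slc X) e J K) := fun K hK =>
    lsum_B hJ (mem_range.1 hK) f
  have h2 : ∀ e ∈ range (Tab.slr X), lsum (Tab.slr X) (Tab.slc X) (e * Tab.slc X + J) f =
      ∑ K ∈ range 3, f (ix (Tab.slc X) e J K) := fun e he => lsum_A (mem_range.1 he) hJ f
  rw [sum_congr rfl h1, sum_congr rfl h2, sum_comm]

/-- **A table supported in the three columns with the right lines `(e, J, ·)` and the right lines in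
the layers `1` and `2` has the right line sums**; `F` is a table with these line sums. -/
theorem all_lines {f F : ℕ → ℝ}
    (hA : ∀ e < Tab.slr X, ∀ J < Tab.slc X, lsum (Tab.slr X) (Tab.slc X) (e * Tab.slc X + J) f =
      lsum (Tab.slr X) (Tab.slc X) (e * Tab.slc X + J) F)
    (hC : ∀ K, K = 1 ∨ K = 2 → ∀ e < Tab.slr X, lsum (Tab.slr X) (Tab.slc X)
      (Tab.slr X * Tab.slc X + 3 * Tab.slc X + (3 * e + K)) f = lsum (Tab.slr X) (Tab.slc X)
      (Tab.slr X * Tab.slc X + 3 * Tab.slc X + (3 * e + K)) F)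
    (hB : ∀ K, K = 1 ∨ K = 2 → ∀ J < Tab.slc X, lsum (Tab.slr X) (Tab.slc X)
      (Tab.slr X * Tab.slc X + (3 * J + K)) f = lsum (Tab.slr X) (Tab.slc X)
      (Tab.slr X * Tab.slc X + (3 * J + K)) F) :
    ∀ p < lines (Tab.slr X) (Tab.slc X), lsum (Tab.slr X) (Tab.slc X) p f =
      lsum (Tab.slr X) (Tab.slc X) p F := by
  rw [forall_lines (Q := fun p => lsum (Tab.slr X) (Tab.slc X) p f =
    lsum (Tab.slr X) (Tab.slc X) p F)]
  refine ⟨hA, fun J hJ K hK => ?_, fun e he K hK => ?_⟩
  · by_cases hK0 : K = 0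
    · subst hK0
      have h1 := sum_BA f hJ
      have h2 := sum_BA F hJ
      rw [sum_congr rfl fun e he => hA e (mem_range.1 he) J hJ, ← h2] at h1
      simp only [sum_range_succ, sum_range_zero, zero_add] at h1
      rw [hB 1 (Or.inl rfl) J hJ, hB 2 (Or.inr rfl) J hJ] at h1
      linarith
    · exact hB K (by omega) J hJ
  · by_cases hK0 : K = 0
    · subst hK0
      have h1 := sum_CA f he
      have h2 := sum_CA F he
      rw [sum_congr rfl fun J hJ => hA e he J (mem_range.1 hJ), ← h2] at h1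
      simp only [sum_range_succ, sum_range_zero, zero_add] at h1
      rw [hC 1 (Or.inl rfl) e he, hC 2 (Or.inr rfl) e he] at h1
      linarith
    · exact hC K (by omega) e he

end Pool.Agent.Simplex.Tc
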